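import Mathlib

/-!
# Common value curve of an entire function (MP_d0f9b4): definitions and job statements

For entire `f, g` (in the application `g w = conj (f (conj w))`) let
`Phi f z = z f'(z) / f(z)`.  The curve is `{(z, w) : f z ≠ 0, g w ≠ 0, Phi f z = Phi g w}`.
`Img f g m` is the set of all `(z w, Phi f z)` on the curve with `z w ≠ 0`, value `∉ {0, m}`.
-/

namespace Pool.Agent.R199.CV

open Complex Set Filter Topology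

noncomputable section

/-- `z f'(z) / f(z)`. -/
def Phi (f : ℂ → ℂ) (z : ℂ) : ℂ := z * deriv f z / f z

/-- `f` is a monomial `c z^k` (this includes `f = 0`). -/
def IsMono (f : ℂ → ℂ) : Prop := ∃ (c : ℂ) (k : ℕ), ∀ z, f z = c * z ^ k

/-- the curve `Phi f z = Phi g w`. -/
def Curve (f g : ℂ → ℂ) : Set (ℂ × ℂ) :=
  {p | f p.1 ≠ 0 ∧ g p.2 ≠ 0 ∧ Phi f p.1 = Phi g p.2}

/-- the map `(z, w) ↦ (z w, Phi f z)`. -/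
def toImg (f : ℂ → ℂ) (p : ℂ × ℂ) : ℂ × ℂ := (p.1 * p.2, Phi f p.1)

/-- the image set `I`. -/
def Img (f g : ℂ → ℂ) (m : ℂ) : Set (ℂ × ℂ) :=
  {q | q.1 ≠ 0 ∧ q.2 ≠ 0 ∧ q.2 ≠ m ∧ ∃ p ∈ Curve f g, toImg f p = q}

/-- the part of the curve lying over the connected component of `x` in `I \ T`. -/
def X0 (f g : ℂ → ℂ) (m : ℂ) (T : Set (ℂ × ℂ)) (x : ℂ × ℂ) : Set (ℂ × ℂ) :=
  {p | p ∈ Curve f g ∧ toImg f p ∈ connectedComponentIn (Img f g m \ T) x}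

/-- JobFinal. -/
def JobFinal : Prop :=
  ∀ f g : ℂ → ℂ, Differentiable ℂ f → Differentiable ℂ g →
    (∀ w, ‖g w‖ = ‖f ((starRingEnd ℂ) w)‖) →
    ∀ κ z0 : ℂ, κ ≠ 0 → z0 ≠ 0 →
    (∀ᶠ z in 𝓝 z0, z * deriv f z * g (κ / z) = (κ / z) * deriv g (κ / z) * f z) →
    IsMono f

/-- JobMax: the maximum principle. -/
def JobMax : Prop :=
  ∀ (X : Set (ℂ × ℂ)) (δ : ℝ), 0 < δ → IsClosed X → (∀ p ∈ X, δ ≤ ‖p.1 * p.2‖) →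
    ∀ q : ℕ → ℂ → ℂ, (∀ W, Differentiable ℂ (q W)) → (∀ W, ∃ z, q W z ≠ 0) →
    (∀ W : ℕ, ∀ p ∈ X, ‖p.2‖ < W → q W p.1 ≠ 0 →
      ∃ h : ℂ → ℂ, AnalyticAt ℂ h p.1 ∧ h p.1 = p.2 ∧ ∀ᶠ z in 𝓝 p.1, (z, h z) ∈ X) →
    (∃ W : ℕ, ∃ p ∈ X, ‖p.2‖ < W ∧ q W p.1 ≠ 0) →
    ∃ z0 κ : ℂ, z0 ≠ 0 ∧ κ ≠ 0 ∧ ∀ᶠ z in 𝓝 z0, (z, κ / z) ∈ X

/-- JobQ: construction of the functions whose zeros contain all exceptional points. -/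
def JobQ : Prop :=
  ∀ (f g : ℂ → ℂ) (m : ℂ), Differentiable ℂ f → Differentiable ℂ g → ¬ IsMono f → ¬ IsMono g →
    ∃ q : ℕ → ℂ → ℂ, (∀ W, Differentiable ℂ (q W)) ∧ (∀ W, ∃ z, q W z ≠ 0) ∧
      ∀ (W : ℕ) (z : ℂ), q W z ≠ 0 →
        z ≠ 0 ∧ f z ≠ 0 ∧ Phi f z ≠ 0 ∧ Phi f z ≠ m ∧ deriv (Phi f) z ≠ 0 ∧
        ∀ w : ℂ, ‖w‖ < W → g w ≠ 0 → Phi f z = Phi g w → deriv (Phi g) w ≠ 0

/-- JobRegular: at a regular point of the closure of `X0` the whole local branch of the curve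
lies in the closure of `X0`. -/
def JobRegular : Prop :=
  ∀ (f g : ℂ → ℂ) (m : ℂ) (T : Set (ℂ × ℂ)) (x : ℂ × ℂ), Differentiable ℂ f → Differentiable ℂ g →
    T.Countable →
    ∀ z0 w0 : ℂ, (z0, w0) ∈ closure (X0 f g m T x) → z0 ≠ 0 → w0 ≠ 0 → f z0 ≠ 0 → g w0 ≠ 0 →
      Phi f z0 = Phi g w0 → Phi f z0 ≠ 0 → Phi f z0 ≠ m →
      deriv (Phi f) z0 ≠ 0 → deriv (Phi g) w0 ≠ 0 →
      ∃ h : ℂ → ℂ, AnalyticAt ℂ h z0 ∧ h z0 = w0 ∧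
        ∀ᶠ z in 𝓝 z0, (z, h z) ∈ closure (X0 f g m T x)

/-- JobClosure: limits of points of the curve. -/
def JobClosure : Prop :=
  ∀ (f g : ℂ → ℂ), Differentiable ℂ f → Differentiable ℂ g → ¬ IsMono g →
    ∀ z0 w0 : ℂ, (z0, w0) ∈ closure (Curve f g) →
      (z0 * deriv f z0 * g w0 = w0 * deriv g w0 * f z0) ∧
      (w0 ≠ 0 → f z0 ≠ 0 → g w0 ≠ 0 ∧ Phi f z0 = Phi g w0)

/-- JobRoot: local parametrisation `φ (Z t) = φ z0 + t ^ p`. -/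
def JobRoot : Prop :=
  ∀ (φ : ℂ → ℂ) (z0 : ℂ), AnalyticAt ℂ φ z0 → (¬ ∀ᶠ z in 𝓝 z0, φ z = φ z0) →
    ∃ p : ℕ, 0 < p ∧ ∃ Z : ℂ → ℂ, AnalyticAt ℂ Z 0 ∧ Z 0 = z0 ∧ deriv Z 0 ≠ 0 ∧
      ∀ᶠ t in 𝓝 (0 : ℂ), φ (Z t) = φ z0 + t ^ p

/-- JobStart: the component of `x` contains points over which the given entire function `Q`
does not vanish. -/
def JobStart : Prop :=
  ∀ (f g : ℂ → ℂ) (m : ℂ) (T : Set (ℂ × ℂ)) (x : ℂ × ℂ), Differentiable ℂ f → Differentiable ℂ g →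
    ¬ IsMono f → ¬ IsMono g → T.Countable → x ∈ Img f g m \ T →
    ∃ B : ℝ, ∀ Q : ℂ → ℂ, Differentiable ℂ Q → (∃ z, Q z ≠ 0) →
      ∃ p ∈ X0 f g m T x, ‖p.2‖ < B ∧ Q p.1 ≠ 0

end

end Pool.Agent.R199.CV
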