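import Pool.Agent.R199.CV.Defs

set_option autoImplicit false
set_option maxHeartbeats 400000

/-! Elementary facts about entire functions (helper552). -/

namespace Pool.Agent.R199.CV.Ent

open Complex Set Filter Topology

theorem eq_zero_of_eventually {f : ℂ → ℂ} (hf : Differentiable ℂ f) {a : ℂ}
    (h : ∀ᶠ z in 𝓝 a, f z = 0) (z : ℂ) : f z = 0 := by
  have h1 : AnalyticOnNhd ℂ f univ := fun x _ => hf.analyticAt x
  have h2 : AnalyticOnNhd ℂ (fun _ : ℂ => (0:ℂ)) univ := fun x _ => analyticAt_const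
  have h3 := h1.eq_of_eventuallyEq h2 (z₀ := a) h
  exact congrFun h3 z

theorem isolated {f : ℂ → ℂ} (hf : Differentiable ℂ f) (h : ∃ z, f z ≠ 0) (a : ℂ) :
    ∀ᶠ z in 𝓝[≠] a, f z ≠ 0 := by
  rcases (hf.analyticAt a).eventually_eq_zero_or_eventually_ne_zero with h1 | h1
  · obtain ⟨z, hz⟩ := h
    exact absurd (eq_zero_of_eventually hf h1 z) hz
  · exact h1

theorem finite_zeros {f : ℂ → ℂ} (hf : Differentiable ℂ f) (h : ∃ z, f z ≠ 0) {K : Set ℂ}
    (hK : IsCompact K) : {z | z ∈ K ∧ f z = 0}.Finite := by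
  by_contra hinf
  obtain ⟨x, -, hx⟩ := Set.Infinite.exists_accPt_of_subset_isCompact (s := {z | z ∈ K ∧ f z = 0})
    hinf hK (fun z hz => hz.1)
  have h1 : ∃ᶠ z in 𝓝[≠] x, z ∈ {z | z ∈ K ∧ f z = 0} := accPt_iff_frequently_nhdsNE.1 hx
  have h2 := isolated hf h x
  obtain ⟨z, hz1, hz2⟩ := (h1.and_eventually h2).exists
  exact hz2 hz1.2

theorem exists_ne_mul {f g : ℂ → ℂ} (hf : ∀ᶠ z in 𝓝[≠] (0:ℂ), f z ≠ 0)
    (hg : ∀ᶠ z in 𝓝[≠] (0:ℂ), g z ≠ 0) : ∀ᶠ z in 𝓝[≠] (0:ℂ), f z * g z ≠ 0 := by
  filter_upwards [hf, hg] with z h1 h2 using mul_ne_zero h1 h2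

/-- `z f' = c f` implies that `f` is a monomial -/
theorem isMono_of {f : ℂ → ℂ} (hf : Differentiable ℂ f) (c : ℂ)
    (h : ∀ z, z * deriv f z = c * f z) : IsMono f := by
  have hd : ∀ n, Differentiable ℂ (iteratedDeriv n f) := by
    intro n
    have : ContDiff ℂ (⊤ : ℕ∞) f := hf.contDiff
    exact this.differentiable_iteratedDeriv n (by exact_mod_cast WithTop.coe_lt_top n)
  have key : ∀ n z, z * iteratedDeriv (n + 1) f z + n * iteratedDeriv n f z =
      c * iteratedDeriv n f z := by
    intro n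
    induction n with
    | zero =>
      intro z
      rw [iteratedDeriv_one, iteratedDeriv_zero]
      simp [h z]
    | succ n ih =>
      intro z
      have h1 : (fun z => z * iteratedDeriv (n + 1) f z + n * iteratedDeriv n f z) =
          fun z => c * iteratedDeriv n f z := funext ih
      have h2 : HasDerivAt (fun z => z * iteratedDeriv (n + 1) f z + n * iteratedDeriv n f z)
          ((1 * iteratedDeriv (n + 1) f z + z * iteratedDeriv (n + 1 + 1) f z) +
            n * iteratedDeriv (n + 1) f z) z := by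
        have a1 : HasDerivAt (iteratedDeriv (n + 1) f) (iteratedDeriv (n + 1 + 1) f z) z := by
          rw [iteratedDeriv_succ (n := n + 1)]; exact (hd (n + 1) z).hasDerivAt
        have a2 : HasDerivAt (iteratedDeriv n f) (iteratedDeriv (n + 1) f z) z := by
          rw [iteratedDeriv_succ (n := n)]; exact (hd n z).hasDerivAt
        exact ((hasDerivAt_id z).mul a1).add (a2.const_mul (n:ℂ))
      have h3 : HasDerivAt (fun z => c * iteratedDeriv n f z) (c * iteratedDeriv (n + 1) f z) z := by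
        have a2 : HasDerivAt (iteratedDeriv n f) (iteratedDeriv (n + 1) f z) z := by
          rw [iteratedDeriv_succ (n := n)]; exact (hd n z).hasDerivAt
        exact a2.const_mul c
      rw [h1] at h2
      have h4 := h2.unique h3
      push_cast
      linear_combination h4
  have h0 : ∀ n : ℕ, (n:ℂ) * iteratedDeriv n f 0 = c * iteratedDeriv n f 0 := by
    intro n
    have := key n 0
    simpa using this
  by_cases hk : ∃ k : ℕ, iteratedDeriv k f 0 ≠ 0
  · obtain ⟨k, hk⟩ := hk
    have hc : (k:ℂ) = c := mul_right_cancel₀ hk (h0 k)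
    refine ⟨((Nat.factorial k : ℕ) : ℂ)⁻¹ * iteratedDeriv k f 0, k, fun z => ?_⟩
    have h1 := hasSum_taylorSeries_of_entire hf 0 z
    have h2 : HasSum (fun n : ℕ => ((Nat.factorial n : ℕ) : ℂ)⁻¹ • (z - 0) ^ n • iteratedDeriv n f 0)
        (((Nat.factorial k : ℕ) : ℂ)⁻¹ • (z - 0) ^ k • iteratedDeriv k f 0) := by
      apply hasSum_single
      intro n hn
      have : iteratedDeriv n f 0 = 0 := by
        by_contra hne
        have : (n:ℂ) = c := mul_right_cancel₀ hne (h0 n)
        rw [← hc] at this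
        exact hn (by exact_mod_cast this)
      rw [this]; simp
    rw [h1.unique h2]
    simp only [sub_zero, smul_eq_mul]
    ring
  · push Not at hk
    refine ⟨0, 0, fun z => ?_⟩
    have h1 := hasSum_taylorSeries_of_entire hf 0 z
    simp only [hk, smul_zero] at h1
    rw [h1.unique hasSum_zero]
    simp

theorem exists_ne {f : ℂ → ℂ} (hf : Differentiable ℂ f) (hm : ¬ IsMono f) (c : ℂ) :
    ∃ z, z * deriv f z - c * f z ≠ 0 := by
  by_contra hcon
  push Not at hcon
  exact hm (isMono_of hf c fun z => sub_eq_zero.1 (hcon z))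

end Pool.Agent.R199.CV.Ent
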