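import Pool.Agent.R199.CV.Main

/-! Statement of MP_d0f9b4 and its reduction to the jobs. -/

namespace Pool.Agent.R199.CV

open Complex Set Filter Topology
open scoped ComplexConjugate

/-- The fibre `F(s, a)`. -/
def Fib (f : ℂ → ℂ) (s a : ℂ) : Set (ℂ × ℂ) :=
  {p | p.1 * p.2 = s ∧ (f p.1 ≠ 0 ∧ p.1 * deriv f p.1 / f p.1 = a) ∧
    (f (conj p.2) ≠ 0 ∧ conj (conj p.2 * deriv f (conj p.2) / f (conj p.2)) = a)}

/-- The set `I`; `m₀ = analyticOrderNatAt f 0` is the order of vanishing of `f` at `0`. -/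
def ISet (f : ℂ → ℂ) : Set (ℂ × ℂ) :=
  {q | q.1 ≠ 0 ∧ q.2 ≠ 0 ∧ q.2 ≠ (analyticOrderNatAt f 0 : ℂ) ∧ (Fib f q.1 q.2).Nonempty}

/-- Admissible sets `T`. -/
def Admissible (f : ℂ → ℂ) (T : Set (ℂ × ℂ)) : Prop :=
  T.Countable ∧ (∀ p ∈ ISet f, ∃ U ∈ 𝓝 p, (T ∩ U).Finite) ∧
    (∀ p ∈ ISet f \ T, ∃ U ∈ 𝓝 p, ∀ q ∈ U ∩ (ISet f \ T),
      (Fib f q.1 q.2).encard = (Fib f p.1 p.2).encard)

/-- `w ↦ conj (f (conj w))`. -/
noncomputable def cg (f : ℂ → ℂ) (w : ℂ) : ℂ := conj (f (conj w))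

lemma cg_diff {f : ℂ → ℂ} (hf : Differentiable ℂ f) : Differentiable ℂ (cg f) := by
  intro w
  have h := (hf (conj w)).conj_conj
  rw [Complex.conj_conj] at h
  exact h

lemma deriv_cg {f : ℂ → ℂ} (hf : Differentiable ℂ f) (w : ℂ) :
    deriv (cg f) w = conj (deriv f (conj w)) := by
  have h := (hf (conj w)).hasDerivAt.conj_conj
  rw [Complex.conj_conj] at h
  have h2 : HasDerivAt (cg f) (conj (deriv f (conj w))) w := h
  exact h2.deriv

lemma Phi_cg {f : ℂ → ℂ} (hf : Differentiable ℂ f) (w : ℂ) :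
    Phi (cg f) w = conj (conj w * deriv f (conj w) / f (conj w)) := by
  simp [Phi, deriv_cg hf, cg]

lemma ISet_eq {f : ℂ → ℂ} (hf : Differentiable ℂ f) :
    ISet f = Img f (cg f) (analyticOrderNatAt f 0 : ℂ) := by
  ext ⟨s, a⟩
  constructor
  · rintro ⟨h1, h2, h3, ⟨z, w⟩, hp1, ⟨hp2, hp3⟩, hp4, hp5⟩
    refine ⟨h1, h2, h3, (z, w), ⟨hp2, ?_, ?_⟩, ?_⟩
    · simpa [cg] using hp4
    · rw [Phi_cg hf]
      simp only at hp3 hp5 ⊢
      rw [hp5]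
      exact hp3
    · ext
      · exact hp1
      · exact hp3
  · rintro ⟨h1, h2, h3, ⟨z, w⟩, ⟨hp2, hp4, hp5⟩, hp⟩
    have e1 : z * w = s := congrArg Prod.fst hp
    have e2 : Phi f z = a := congrArg Prod.snd hp
    refine ⟨h1, h2, h3, (z, w), e1, ⟨hp2, e2⟩, ?_, ?_⟩
    · simpa [cg] using hp4
    · rw [Phi_cg hf] at hp5
      simp only at hp5 ⊢
      rw [← hp5]
      exact e2

lemma isMono_of_cg {f : ℂ → ℂ} (h : IsMono (cg f)) : IsMono f := by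
  obtain ⟨c, k, hc⟩ := h
  refine ⟨conj c, k, fun z => ?_⟩
  have := hc (conj z)
  simp only [cg, Complex.conj_conj] at this
  have h2 := congrArg conj this
  simpa using h2

/-- Final statement, assuming the jobs. -/
theorem final_of_jobs (hF : JobFinal) (hM : JobMax) (hQ : JobQ) (hR : JobRegular)
    (hC : JobClosure) (hS : JobStart) :
    ∀ f : ℂ → ℂ, Differentiable ℂ f → (¬ ∃ (c : ℂ) (k : ℕ), ∀ z, f z = c * z ^ k) →
      ∀ T : Set (ℂ × ℂ), Admissible f T → ∀ x ∈ ISet f \ T, ∀ η : ℝ, 0 < η →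
        ∃ p ∈ connectedComponentIn (ISet f \ T) x, ‖p.1‖ < η ^ 2 := by
  intro f hf hfm T hT x hx η hη
  rw [ISet_eq hf] at hx ⊢
  exact main_of_jobs hF hM hQ hR hC hS f (cg f) _ hf (cg_diff hf)
    (fun w => by simp [cg]) hfm (fun h => hfm (isMono_of_cg h)) T hT.1 x hx (η ^ 2)
    (by positivity)

end Pool.Agent.R199.CV
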