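import Pool.Agent.R199.CV.Defs

/-!
# JobFinal: an entire function with a hyperbola in its common value curve is a monomial
-/

set_option autoImplicit false

namespace Pool.Agent.R199.CV.JobFinalJob

open Complex Set Filter Topology

theorem conn : IsPreconnected ({0}ᶜ : Set ℂ) :=
  (isConnected_compl_singleton_of_one_lt_rank (by rw [Complex.rank_real_complex]; norm_num)
    (0 : ℂ)).isPreconnected

/-- an entire function which vanishes near a point is zero -/
theorem eq_zero_of_near {f : ℂ → ℂ} (hf : Differentiable ℂ f) {w : ℂ} (h : ∀ᶠ z in 𝓝 w, f z = 0) :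
    ∀ z, f z = 0 := by
  have h1 : AnalyticOnNhd ℂ f univ := fun z _ => hf.analyticAt z
  have h2 : AnalyticOnNhd ℂ (fun _ : ℂ => (0 : ℂ)) univ := fun z _ => analyticAt_const
  have h3 := h1.eqOn_of_preconnected_of_eventuallyEq h2 isPreconnected_univ (mem_univ w) h
  exact fun z => h3 (mem_univ z)

/-- the product `f z * g (κ / z)` is constant -/
theorem prod_const {f g : ℂ → ℂ} (hf : Differentiable ℂ f) (hg : Differentiable ℂ g) {κ z0 : ℂ}
    (hz0 : z0 ≠ 0)
    (h : ∀ᶠ z in 𝓝 z0, z * deriv f z * g (κ / z) = (κ / z) * deriv g (κ / z) * f z) :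
    ∃ c : ℂ, ∀ z, z ≠ 0 → f z * g (κ / z) = c := by
  have hinv : ∀ z : ℂ, z ≠ 0 → HasDerivAt (fun z : ℂ => κ / z) (-κ / z ^ 2) z := by
    intro z hz
    have h1 := (hasDerivAt_inv hz).const_mul κ
    have h2 : κ * -(z ^ 2)⁻¹ = -κ / z ^ 2 := by rw [div_eq_mul_inv]; ring
    rw [h2] at h1
    exact h1
  have hP : ∀ z : ℂ, z ≠ 0 → HasDerivAt (fun z => f z * g (κ / z))
      (deriv f z * g (κ / z) + f z * (deriv g (κ / z) * (-κ / z ^ 2))) z := by
    intro z hz
    have h1 : HasDerivAt (fun z => g (κ / z)) (deriv g (κ / z) * (-κ / z ^ 2)) z :=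
      HasDerivAt.comp z (hg.differentiableAt.hasDerivAt) (hinv z hz)
    exact hf.differentiableAt.hasDerivAt.mul h1
  have hne : ∀ᶠ z in 𝓝 z0, z ≠ 0 := continuousAt_id.eventually_ne hz0
  obtain ⟨ε, hε, hball⟩ := Metric.eventually_nhds_iff_ball.1 (h.and hne)
  have hder : ∀ z ∈ Metric.ball z0 ε, HasDerivAt (fun z => f z * g (κ / z)) 0 z := by
    intro z hz
    obtain ⟨h1, h2⟩ := hball z hz
    have h3 := hP z h2
    have h4 : deriv f z * g (κ / z) + f z * (deriv g (κ / z) * (-κ / z ^ 2)) = 0 := by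
      have h5 : z * (deriv f z * g (κ / z) + f z * (deriv g (κ / z) * (-κ / z ^ 2))) = 0 := by
        have h6 : z * (f z * (deriv g (κ / z) * (-κ / z ^ 2))) =
            -((κ / z) * deriv g (κ / z) * f z) := by
          field_simp
        rw [mul_add, h6, ← h1]
        ring
      exact (mul_eq_zero.1 h5).resolve_left h2
    rwa [h4] at h3
  refine ⟨f z0 * g (κ / z0), ?_⟩
  have hconst : ∀ z ∈ Metric.ball z0 ε, f z * g (κ / z) = f z0 * g (κ / z0) := by
    intro z hz
    refine (convex_ball z0 ε).is_const_of_fderivWithin_eq_zero (𝕜 := ℂ)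
      (f := fun z => f z * g (κ / z)) ?_ ?_ hz (Metric.mem_ball_self hε)
    · exact fun y hy => (hder y hy).differentiableAt.differentiableWithinAt
    · intro y hy
      rw [fderivWithin_of_isOpen Metric.isOpen_ball hy]
      ext
      simp [(hder y hy).hasFDerivAt.fderiv]
  have hA : AnalyticOnNhd ℂ (fun z => f z * g (κ / z)) {0}ᶜ := by
    refine DifferentiableOn.analyticOnNhd ?_ isOpen_compl_singleton
    exact fun z hz => (hP z hz).differentiableAt.differentiableWithinAt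
  have hB : AnalyticOnNhd ℂ (fun _ : ℂ => f z0 * g (κ / z0)) {0}ᶜ := fun z _ => analyticAt_const
  have hE := hA.eqOn_of_preconnected_of_eventuallyEq hB conn (z₀ := z0) hz0
    (Metric.eventually_nhds_iff_ball.2 ⟨ε, hε, hconst⟩)
  exact fun z hz => hE hz

theorem main : JobFinal := by
  intro f g hf hg hfg κ z0 hκ hz0 h
  obtain ⟨c, hc⟩ := prod_const hf hg hz0 h
  by_cases hzero : ∀ z, f z = 0
  · exact ⟨0, 0, fun z => by rw [hzero z]; simp⟩
  have hnn : ∀ w, ¬ ∀ᶠ z in 𝓝 w, f z = 0 := fun w hw => hzero (eq_zero_of_near hf hw)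
  have hc0 : c ≠ 0 := by
    rintro rfl
    -- a point `z1 ≠ 0` with `f z1 ≠ 0`
    have h1 : ∃ z1, z1 ≠ 0 ∧ f z1 ≠ 0 := by
      by_contra hcon
      push Not at hcon
      refine hnn 1 ?_
      filter_upwards [continuousAt_id.eventually_ne (one_ne_zero (α := ℂ))] with z hz
      exact hcon z hz
    obtain ⟨z1, h1, h2⟩ := h1
    have h3 : ∀ᶠ w in 𝓝 (κ / z1), g w = 0 := by
      have hw : κ / z1 ≠ 0 := div_ne_zero hκ h1
      have hcont : ContinuousAt (fun w => f (κ / w)) (κ / z1) :=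
        ContinuousAt.comp hf.continuous.continuousAt (continuousAt_const.div continuousAt_id hw)
      have hv : f (κ / (κ / z1)) ≠ 0 := by rwa [div_div_cancel₀ hκ]
      filter_upwards [hcont.eventually_ne hv, continuousAt_id.eventually_ne hw] with w hw1 hw2
      have h4 := hc (κ / w) (div_ne_zero hκ hw2)
      rw [div_div_cancel₀ hκ] at h4
      exact (mul_eq_zero.1 h4).resolve_left hw1
    have h5 := eq_zero_of_near hg h3
    refine hzero fun z => ?_
    have h6 := hfg ((starRingEnd ℂ) z)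
    rw [h5, norm_zero, Complex.conj_conj] at h6
    exact norm_eq_zero.1 h6.symm
  obtain ⟨k, F, hF, hF0, hE⟩ := (hf.analyticAt 0).exists_eventuallyEq_pow_smul_nonzero_iff.2 (hnn 0)
  simp only [sub_zero, smul_eq_mul] at hE
  -- the quotient `f z / z ^ k`
  set F1 : ℂ → ℂ := fun z => if z = 0 then F 0 else f z / z ^ k with hF1
  have hF1n : ∀ z, z ≠ 0 → F1 z = f z / z ^ k := fun z hz => by rw [hF1]; simp only; rw [if_neg hz]
  have hF10 : F1 0 = F 0 := by rw [hF1]; simp
  have hF1d : Differentiable ℂ F1 := by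
    intro z
    by_cases hz : z = 0
    · subst hz
      have : F1 =ᶠ[𝓝 0] F := by
        filter_upwards [hE] with z hz
        by_cases hz0 : z = 0
        · rw [hz0, hF10]
        · rw [hF1n z hz0, hz, mul_comm, mul_div_cancel_right₀ _ (pow_ne_zero k hz0)]
      exact this.differentiableAt_iff.2 hF.differentiableAt
    · have h1 : F1 =ᶠ[𝓝 z] fun z => f z / z ^ k := by
        filter_upwards [continuousAt_id.eventually_ne hz] with y hy
        exact hF1n y hy
      refine h1.differentiableAt_iff.2 ?_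
      exact (hf z).div ((differentiable_id.pow k) z) (pow_ne_zero k hz)
  -- growth
  have hbd : ∃ R C : ℝ, 0 < R ∧ ∀ w : ℂ, R ≤ ‖w‖ → ‖F1 w‖ ≤ C := by
    have h1 : ∀ᶠ z in 𝓝 (0 : ℂ), ‖F 0‖ / 2 < ‖F z‖ := by
      have h2 : ContinuousAt (fun z => ‖F z‖) 0 := hF.continuousAt.norm
      exact h2.eventually (lt_mem_nhds (by have := norm_pos_iff.2 hF0; linarith))
    obtain ⟨ε, hε, hball⟩ := Metric.eventually_nhds_iff_ball.1 (h1.and hE)
    have hFp := norm_pos_iff.2 hF0
    have hκp := norm_pos_iff.2 hκ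
    refine ⟨2 * ‖κ‖ / ε, ‖c‖ / (‖κ‖ ^ k * (‖F 0‖ / 2)), by positivity, fun w hw => ?_⟩
    have hw0 : 0 < ‖w‖ := lt_of_lt_of_le (by positivity) hw
    have hwne : w ≠ 0 := norm_pos_iff.1 hw0
    set v : ℂ := (starRingEnd ℂ) w with hv
    have hvn : ‖v‖ = ‖w‖ := by rw [hv, RCLike.norm_conj]
    have hvne : v ≠ 0 := norm_pos_iff.1 (by rw [hvn]; exact hw0)
    have hin : κ / v ∈ Metric.ball (0 : ℂ) ε := by
      rw [mem_ball_zero_iff, norm_div, hvn, div_lt_iff₀ hw0]
      rw [div_le_iff₀ hε] at hw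
      linarith
    obtain ⟨h2, h3⟩ := hball _ hin
    have hκv : κ / v ≠ 0 := div_ne_zero hκ hvne
    have h4 := hc (κ / v) hκv
    rw [div_div_cancel₀ hκ] at h4
    have h5 : ‖g v‖ = ‖f w‖ := by rw [hfg v, hv, Complex.conj_conj]
    have h6 : ‖f (κ / v)‖ * ‖f w‖ = ‖c‖ := by rw [← h5, ← norm_mul, h4]
    have h7 : ‖f (κ / v)‖ = (‖κ‖ / ‖w‖) ^ k * ‖F (κ / v)‖ := by
      rw [h3, norm_mul, norm_pow, norm_div, hvn]
    rw [hF1n w hwne, norm_div, norm_pow, le_div_iff₀ (by positivity), ← h6, h7]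
    have h8 : (‖κ‖ / ‖w‖) ^ k * ‖F (κ / v)‖ * ‖f w‖ =
        ‖f w‖ / ‖w‖ ^ k * (‖κ‖ ^ k * ‖F (κ / v)‖) := by
      rw [div_pow]; ring
    rw [h8]
    gcongr
  obtain ⟨R, C, hR, hRC⟩ := hbd
  have hrange : Bornology.IsBounded (range F1) := by
    obtain ⟨B, hB⟩ := (isCompact_closedBall (0 : ℂ) R).exists_bound_of_continuousOn
      hF1d.continuous.continuousOn
    rw [isBounded_iff_forall_norm_le]
    refine ⟨max B C, ?_⟩
    rintro _ ⟨z, rfl⟩
    rcases le_total ‖z‖ R with hz | hz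
    · exact (hB z (mem_closedBall_zero_iff.2 hz)).trans (le_max_left _ _)
    · exact (hRC z hz).trans (le_max_right _ _)
  refine ⟨F 0, k, fun z => ?_⟩
  by_cases hz : z = 0
  · subst hz
    rw [hE.self_of_nhds]
    ring
  · have h1 := hF1d.apply_eq_apply_of_bounded hrange z 0
    rw [hF10, hF1n z hz, div_eq_iff (pow_ne_zero k hz)] at h1
    exact h1

end Pool.Agent.R199.CV.JobFinalJob
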