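import Pool.Agent.R199.CV.Ent

set_option autoImplicit false
set_option maxHeartbeats 400000

namespace Pool.Agent.R199.CV.JobMaxJob

open Complex Set Filter Topology Pool.Agent.R199.CV.Ent

theorem norm_sq_expand (z z₀ : ℂ) :
    ‖z‖ ^ 2 = ‖z₀‖ ^ 2 + (2 * (starRingEnd ℂ) z₀ * (z - z₀)).re + ‖z - z₀‖ ^ 2 := by
  rw [← Complex.normSq_eq_norm_sq, ← Complex.normSq_eq_norm_sq, ← Complex.normSq_eq_norm_sq,
    Complex.normSq_apply, Complex.normSq_apply, Complex.normSq_apply]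
  simp
  ring

/-- STEP 1 -/
theorem step1 {z₀ : ℂ} {Q u h : ℂ → ℂ} (hQ : AnalyticAt ℂ Q z₀) (hu : AnalyticAt ℂ u z₀)
    (hh : AnalyticAt ℂ h z₀) (l j : ℕ) (hQ0 : Q z₀ ≠ 0) (hu0 : u z₀ ≠ 0) (hh0 : z₀ * h z₀ ≠ 0)
    (hmax : ∀ᶠ z in 𝓝 z₀, ‖Q z‖ * Real.exp (‖z‖ ^ 2) * (‖u z‖ * ‖z * h z‖⁻¹ ^ j) ^ l ≤
      ‖Q z₀‖ * Real.exp (‖z₀‖ ^ 2) * (‖u z₀‖ * ‖z₀ * h z₀‖⁻¹ ^ j) ^ l) : False := by
  let G : ℂ → ℂ := fun z => Q z * (u z * (z * h z)⁻¹ ^ j) ^ l *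
    Complex.exp (2 * (starRingEnd ℂ) z₀ * (z - z₀))
  have hzh : AnalyticAt ℂ (fun z => z * h z) z₀ := analyticAt_id.mul hh
  have hG : AnalyticAt ℂ G z₀ := by
    have h1 : AnalyticAt ℂ (fun z => (z * h z)⁻¹) z₀ := hzh.inv hh0
    have h2 : AnalyticAt ℂ (fun z => (u z * (z * h z)⁻¹ ^ j) ^ l) z₀ := (hu.mul (h1.pow j)).pow l
    have h3 : AnalyticAt ℂ (fun z => 2 * (starRingEnd ℂ) z₀ * (z - z₀)) z₀ :=
      analyticAt_const.mul (analyticAt_id.sub analyticAt_const)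
    exact (hQ.mul h2).mul h3.cexp
  have hnorm : ∀ z, ‖G z‖ = ‖Q z‖ * (‖u z‖ * ‖z * h z‖⁻¹ ^ j) ^ l *
      Real.exp (2 * (starRingEnd ℂ) z₀ * (z - z₀)).re := by
    intro z
    simp only [G]
    rw [norm_mul, norm_mul, Complex.norm_exp, norm_pow, norm_mul, norm_pow, norm_inv]
  have hG0 : ‖G z₀‖ = ‖Q z₀‖ * (‖u z₀‖ * ‖z₀ * h z₀‖⁻¹ ^ j) ^ l := by
    rw [hnorm]; simp
  have hpos : 0 < ‖G z₀‖ := by
    rw [hG0]
    have h1 := norm_pos_iff.2 hQ0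
    have h2 := norm_pos_iff.2 hu0
    have h3 := norm_pos_iff.2 hh0
    positivity
  have hle : ∀ᶠ z in 𝓝 z₀, ‖G z‖ ≤ ‖G z₀‖ * Real.exp (-‖z - z₀‖ ^ 2) := by
    filter_upwards [hmax] with z hz
    rw [hG0, hnorm]
    have e1 := norm_sq_expand z z₀
    have e2 : Real.exp (2 * (starRingEnd ℂ) z₀ * (z - z₀)).re =
        Real.exp (‖z‖ ^ 2) * Real.exp (-‖z₀‖ ^ 2) * Real.exp (-‖z - z₀‖ ^ 2) := by
      rw [← Real.exp_add, ← Real.exp_add]; congr 1; linarith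
    rw [e2]
    have h4 := Real.exp_pos (-‖z₀‖ ^ 2)
    have h5 := Real.exp_pos (-‖z - z₀‖ ^ 2)
    have e3 : Real.exp (‖z₀‖ ^ 2) * Real.exp (-‖z₀‖ ^ 2) = 1 := by
      rw [← Real.exp_add]; simp
    calc ‖Q z‖ * (‖u z‖ * ‖z * h z‖⁻¹ ^ j) ^ l *
          (Real.exp (‖z‖ ^ 2) * Real.exp (-‖z₀‖ ^ 2) * Real.exp (-‖z - z₀‖ ^ 2))
        = (‖Q z‖ * Real.exp (‖z‖ ^ 2) * (‖u z‖ * ‖z * h z‖⁻¹ ^ j) ^ l) *
          (Real.exp (-‖z₀‖ ^ 2) * Real.exp (-‖z - z₀‖ ^ 2)) := by ring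
      _ ≤ (‖Q z₀‖ * Real.exp (‖z₀‖ ^ 2) * (‖u z₀‖ * ‖z₀ * h z₀‖⁻¹ ^ j) ^ l) *
          (Real.exp (-‖z₀‖ ^ 2) * Real.exp (-‖z - z₀‖ ^ 2)) :=
          mul_le_mul_of_nonneg_right hz (by positivity)
      _ = ‖Q z₀‖ * (‖u z₀‖ * ‖z₀ * h z₀‖⁻¹ ^ j) ^ l *
          (Real.exp (‖z₀‖ ^ 2) * Real.exp (-‖z₀‖ ^ 2)) * Real.exp (-‖z - z₀‖ ^ 2) := by ring
      _ = _ := by rw [e3, mul_one]
  have hloc : IsLocalMax (norm ∘ G) z₀ := by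
    filter_upwards [hle] with z hz
    refine hz.trans ?_
    have : Real.exp (-‖z - z₀‖ ^ 2) ≤ 1 := Real.exp_le_one_iff.2 (by nlinarith [sq_nonneg ‖z - z₀‖])
    calc ‖G z₀‖ * Real.exp (-‖z - z₀‖ ^ 2) ≤ ‖G z₀‖ * 1 :=
          mul_le_mul_of_nonneg_left this hpos.le
      _ = _ := mul_one _
  have hd : ∀ᶠ z in 𝓝 z₀, DifferentiableAt ℂ G z := by
    filter_upwards [hG.eventually_analyticAt] with z hz using hz.differentiableAt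
  have heq := Complex.eventually_eq_of_isLocalMax_norm hd hloc
  have hboth : ∀ᶠ z in 𝓝[≠] z₀, G z = G z₀ ∧ ‖G z‖ ≤ ‖G z₀‖ * Real.exp (-‖z - z₀‖ ^ 2) :=
    (heq.and hle).filter_mono nhdsWithin_le_nhds
  obtain ⟨z, ⟨h1, h2⟩, h3⟩ := (hboth.and self_mem_nhdsWithin).exists
  have h4 : 0 < ‖z - z₀‖ := norm_pos_iff.2 (sub_ne_zero.2 h3)
  have h5 : Real.exp (-‖z - z₀‖ ^ 2) < 1 := by
    rw [← Real.exp_zero]
    exact Real.exp_lt_exp.2 (by nlinarith)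
  rw [h1] at h2
  nlinarith

section

variable {X : Set (ℂ × ℂ)} {δ : ℝ} {q : ℕ → ℂ → ℂ}

/-- the hypotheses -/
structure Hyp (X : Set (ℂ × ℂ)) (δ : ℝ) (q : ℕ → ℂ → ℂ) : Prop where
  pos : 0 < δ
  closed : IsClosed X
  low : ∀ p ∈ X, δ ≤ ‖p.1 * p.2‖
  diff : ∀ W, Differentiable ℂ (q W)
  ne : ∀ W, ∃ z, q W z ≠ 0
  reg : ∀ W : ℕ, ∀ p ∈ X, ‖p.2‖ < W → q W p.1 ≠ 0 →
      ∃ h : ℂ → ℂ, AnalyticAt ℂ h p.1 ∧ h p.1 = p.2 ∧ ∀ᶠ z in 𝓝 p.1, (z, h z) ∈ X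

theorem Hyp.ne_zero (H : Hyp X δ q) {p : ℂ × ℂ} (hp : p ∈ X) : p.1 * p.2 ≠ 0 := by
  have := H.low p hp
  have h2 := H.pos
  intro h0
  rw [h0, norm_zero] at this
  linarith

/-- STEP 2 -/
theorem step2 (H : Hyp X δ q) {a b β : ℝ} (ha : 0 < a) (hβ : 0 < β) {u : ℂ → ℂ}
    (hu : ∀ z, z ≠ 0 → AnalyticAt ℂ u z ∧ u z ≠ 0) (j W : ℕ)
    (hbar : ∀ p ∈ X, a ≤ ‖p.1‖ → ‖p.1‖ ≤ b → (‖p.1‖ = a ∨ ‖p.1‖ = b ∨ (W:ℝ) ≤ ‖p.2‖) →
      ‖u p.1‖ * ‖p.1 * p.2‖⁻¹ ^ j ≤ β)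
    {p₀ : ℂ × ℂ} (hp₀ : p₀ ∈ X) (h1 : a < ‖p₀.1‖) (h2 : ‖p₀.1‖ < b) (h3 : ‖p₀.2‖ < W) {W₀ : ℕ}
    (h4 : ‖p₀.2‖ < W₀) (h5 : q W₀ p₀.1 ≠ 0)
    (hgt : 2 * β < ‖u p₀.1‖ * ‖p₀.1 * p₀.2‖⁻¹ ^ j) : False := by
  obtain ⟨h, hh, hh0, hhX⟩ := H.reg W₀ p₀ hp₀ h4 h5
  have hz0 : p₀.1 ≠ 0 := left_ne_zero_of_mul (H.ne_zero hp₀)
  have hprod : p₀.1 * h p₀.1 ≠ 0 := by rw [hh0]; exact H.ne_zero hp₀
  -- nearby point where `q W` does not vanish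
  have c1 : ContinuousAt (fun z => ‖h z‖) p₀.1 := hh.continuousAt.norm
  have c2 : ContinuousAt (fun z => ‖u z‖ * ‖z * h z‖⁻¹ ^ j) p₀.1 := by
    have e1 : ContinuousAt (fun z => ‖z * h z‖) p₀.1 := (continuousAt_id.mul hh.continuousAt).norm
    have e2 := e1.inv₀ (norm_ne_zero_iff.2 hprod)
    exact (hu p₀.1 hz0).1.continuousAt.norm.mul (e2.pow j)
  have n1 : ∀ᶠ z in 𝓝 p₀.1, a < ‖z‖ := continuous_norm.continuousAt.eventually (lt_mem_nhds h1)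
  have n2 : ∀ᶠ z in 𝓝 p₀.1, ‖z‖ < b := continuous_norm.continuousAt.eventually (gt_mem_nhds h2)
  have n3 : ∀ᶠ z in 𝓝 p₀.1, ‖h z‖ < W := c1.eventually (gt_mem_nhds (by show ‖h p₀.1‖ < _; rw [hh0]; exact h3))
  have n4 : ∀ᶠ z in 𝓝 p₀.1, 2 * β < ‖u z‖ * ‖z * h z‖⁻¹ ^ j :=
    c2.eventually (lt_mem_nhds (by
      show 2 * β < ‖u p₀.1‖ * ‖p₀.1 * h p₀.1‖⁻¹ ^ j
      rw [hh0]; exact hgt))
  have n5 := isolated (H.diff W) (H.ne W) p₀.1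
  obtain ⟨z₁, ⟨m1, m2, m3, m4, m6⟩, m5⟩ :=
    (((n1.and (n2.and (n3.and (n4.and hhX)))).filter_mono nhdsWithin_le_nhds).and n5).exists
  -- bound for `q W`
  obtain ⟨M, hM⟩ := (isCompact_closedBall (0:ℂ) b).exists_bound_of_continuousOn
    (f := fun z => ‖q W z‖ * Real.exp (‖z‖ ^ 2)) (by
      have := (H.diff W).continuous
      fun_prop)
  have hM' : ∀ z, ‖z‖ ≤ b → ‖q W z‖ * Real.exp (‖z‖ ^ 2) ≤ M := by
    intro z hz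
    have := hM z (mem_closedBall_zero_iff.2 hz)
    rw [Real.norm_eq_abs] at this
    exact (le_abs_self _).trans this
  have hM0 : 0 ≤ M := le_trans (by positivity) (hM' z₁ m2.le)
  have hq1 : 0 < ‖q W z₁‖ := norm_pos_iff.2 m5
  obtain ⟨l, hl⟩ := pow_unbounded_of_one_lt (M / ‖q W z₁‖) (by norm_num : (1:ℝ) < 2)
  rw [div_lt_iff₀ hq1] at hl
  -- the compact set
  let Z : Set (ℂ × ℂ) := {p | p ∈ X ∧ a ≤ ‖p.1‖ ∧ ‖p.1‖ ≤ b ∧ ‖p.2‖ ≤ W}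
  have hZc : IsCompact Z := by
    have hcl : IsClosed Z := by
      have e1 : IsClosed {p : ℂ × ℂ | a ≤ ‖p.1‖} := isClosed_le continuous_const (by fun_prop)
      have e2 : IsClosed {p : ℂ × ℂ | ‖p.1‖ ≤ b} := isClosed_le (by fun_prop) continuous_const
      have e3 : IsClosed {p : ℂ × ℂ | ‖p.2‖ ≤ W} := isClosed_le (by fun_prop) continuous_const
      have : Z = X ∩ ({p : ℂ × ℂ | a ≤ ‖p.1‖} ∩ ({p : ℂ × ℂ | ‖p.1‖ ≤ b} ∩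
        {p : ℂ × ℂ | ‖p.2‖ ≤ W})) := by
        ext p; simp only [Z, mem_setOf_eq, mem_inter_iff]
      rw [this]
      exact H.closed.inter (e1.inter (e2.inter e3))
    have hsub : Z ⊆ Metric.closedBall (0:ℂ) b ×ˢ Metric.closedBall (0:ℂ) W := by
      rintro p ⟨-, -, e2, e3⟩
      exact ⟨mem_closedBall_zero_iff.2 e2, mem_closedBall_zero_iff.2 e3⟩
    exact ((isCompact_closedBall _ _).prod (isCompact_closedBall _ _)).of_isClosed_subset hcl hsub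
  let F : ℂ × ℂ → ℝ := fun p => ‖q W p.1‖ * Real.exp (‖p.1‖ ^ 2) *
    (‖u p.1‖ * ‖p.1 * p.2‖⁻¹ ^ j) ^ l
  have hF : ContinuousOn F Z := by
    intro p hp
    apply ContinuousAt.continuousWithinAt
    have hp1 : p.1 ≠ 0 := left_ne_zero_of_mul (H.ne_zero hp.1)
    have e1 : ContinuousAt (fun p : ℂ × ℂ => ‖p.1 * p.2‖⁻¹) p := by
      have : ContinuousAt (fun p : ℂ × ℂ => ‖p.1 * p.2‖) p := by fun_prop
      exact this.inv₀ (norm_ne_zero_iff.2 (H.ne_zero hp.1))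
    have e2 : ContinuousAt (fun p : ℂ × ℂ => u p.1) p :=
      ContinuousAt.comp (f := fun p : ℂ × ℂ => p.1) (g := u) (hu p.1 hp1).1.continuousAt
        continuousAt_fst
    have e3 : ContinuousAt (fun p : ℂ × ℂ => ‖q W p.1‖ * Real.exp (‖p.1‖ ^ 2)) p := by
      have := (H.diff W).continuous
      fun_prop
    exact e3.mul ((e2.norm.mul (e1.pow j)).pow l)
  have hp1Z : ((z₁, h z₁) : ℂ × ℂ) ∈ Z := ⟨m6, m1.le, m2.le, m3.le⟩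
  obtain ⟨ps, hps, hmax⟩ := hZc.exists_isMaxOn ⟨_, hp1Z⟩ hF
  -- the value at the maximum
  have hbig : M * β ^ l < F ps := by
    have e1 : F (z₁, h z₁) ≤ F ps := hmax hp1Z
    refine lt_of_lt_of_le ?_ e1
    simp only [F]
    have e2 : (2 * β) ^ l ≤ (‖u z₁‖ * ‖z₁ * h z₁‖⁻¹ ^ j) ^ l :=
      pow_le_pow_left₀ (by positivity) m4.le l
    have e3 : 1 ≤ Real.exp (‖z₁‖ ^ 2) := Real.one_le_exp (by positivity)
    calc M * β ^ l < (2 ^ l * ‖q W z₁‖) * β ^ l := mul_lt_mul_of_pos_right hl (by positivity)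
      _ = ‖q W z₁‖ * 1 * (2 * β) ^ l := by rw [mul_pow]; ring
      _ ≤ ‖q W z₁‖ * Real.exp (‖z₁‖ ^ 2) * (‖u z₁‖ * ‖z₁ * h z₁‖⁻¹ ^ j) ^ l := by
          gcongr
  have hnobar : ¬ (‖ps.1‖ = a ∨ ‖ps.1‖ = b ∨ (W:ℝ) ≤ ‖ps.2‖) := by
    intro hb
    have e1 := hbar ps hps.1 hps.2.1 hps.2.2.1 hb
    have e2 := hM' ps.1 hps.2.2.1
    have e3 : F ps ≤ M * β ^ l := by
      simp only [F]
      have e4 : (‖u ps.1‖ * ‖ps.1 * ps.2‖⁻¹ ^ j) ^ l ≤ β ^ l :=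
        pow_le_pow_left₀ (by positivity) e1 l
      exact mul_le_mul e2 e4 (by positivity) hM0
    linarith
  push Not at hnobar
  have ha' : a < ‖ps.1‖ := lt_of_le_of_ne hps.2.1 (Ne.symm hnobar.1)
  have hb' : ‖ps.1‖ < b := lt_of_le_of_ne hps.2.2.1 hnobar.2.1
  have hQs : q W ps.1 ≠ 0 := by
    intro h0
    have : F ps = 0 := by simp only [F]; rw [h0]; simp
    rw [this] at hbig
    have : 0 ≤ M * β ^ l := by positivity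
    linarith
  obtain ⟨k, hk, hk0, hkX⟩ := H.reg W ps hps.1 hnobar.2.2 hQs
  have hs0 : ps.1 ≠ 0 := left_ne_zero_of_mul (H.ne_zero hps.1)
  refine step1 ((H.diff W).analyticAt ps.1) (hu ps.1 hs0).1 hk l j hQs (hu ps.1 hs0).2
    (by rw [hk0]; exact H.ne_zero hps.1) ?_
  have o1 : ∀ᶠ z in 𝓝 ps.1, a < ‖z‖ := continuous_norm.continuousAt.eventually (lt_mem_nhds ha')
  have o2 : ∀ᶠ z in 𝓝 ps.1, ‖z‖ < b := continuous_norm.continuousAt.eventually (gt_mem_nhds hb')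
  have o3 : ∀ᶠ z in 𝓝 ps.1, ‖k z‖ < W :=
    hk.continuousAt.norm.eventually (gt_mem_nhds (by show ‖k ps.1‖ < _; rw [hk0]; exact hnobar.2.2))
  filter_upwards [o1, o2, o3, hkX] with z i1 i2 i3 i4
  have e1 : F (z, k z) ≤ F ps := hmax (show ((z, k z) : ℂ × ℂ) ∈ Z from ⟨i4, i1.le, i2.le, i3.le⟩)
  simp only [F] at e1
  rw [hk0]
  exact e1

/-- STEP 3: a good radius -/
theorem exists_radius (H : Hyp X δ q) : ∃ r : ℝ, 0 < r ∧ ∀ W : ℕ, ∀ z : ℂ, ‖z‖ = r → q W z ≠ 0 := by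
  let Bd : Set ℝ := ⋃ W : ℕ, ⋃ n : ℕ, (fun z : ℂ => ‖z‖) ''
    {z | z ∈ Metric.closedBall (0:ℂ) n ∧ q W z = 0}
  have hB : Bd.Countable := by
    apply Set.countable_iUnion
    intro W
    apply Set.countable_iUnion
    intro n
    exact ((finite_zeros (H.diff W) (H.ne W) (isCompact_closedBall _ _)).countable).image _
  have hdense := hB.dense_compl ℝ
  obtain ⟨r, hr1, hr2⟩ := hdense.exists_mem_open isOpen_Ioi (⟨1, by norm_num⟩ : (Ioi (0:ℝ)).Nonempty)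
  refine ⟨r, hr2, ?_⟩
  intro W z hz h0
  apply hr1
  simp only [Bd, mem_iUnion]
  obtain ⟨n, hn⟩ := exists_nat_ge ‖z‖
  exact ⟨W, n, z, ⟨mem_closedBall_zero_iff.2 hn, h0⟩, hz⟩

/-- STEP 3: the claim -/
theorem claim (H : Hyp X δ q) {r : ℝ} (hr : 0 < r) {E : ℝ} (hE : 0 < E)
    (hb : ∀ p ∈ X, ‖p.1‖ = r → ‖p.1 * p.2‖⁻¹ ≤ E) {p₀ : ℂ × ℂ} (hp₀ : p₀ ∈ X)
    (hreg : ∃ W : ℕ, ‖p₀.2‖ < W ∧ q W p₀.1 ≠ 0) : ‖p₀.1 * p₀.2‖⁻¹ ≤ E := by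
  by_contra hcon
  push Not at hcon
  obtain ⟨W₀, hW₀, hq₀⟩ := hreg
  have hne := H.ne_zero hp₀
  have hz0 : p₀.1 ≠ 0 := left_ne_zero_of_mul hne
  have hz0' : 0 < ‖p₀.1‖ := norm_pos_iff.2 hz0
  have hδ := H.pos
  set A := ‖p₀.1 * p₀.2‖⁻¹ with hA
  have hAE : 1 < A / E := by rw [lt_div_iff₀ hE]; linarith
  have hvδ : ∀ p ∈ X, ‖p.1 * p.2‖⁻¹ ≤ δ⁻¹ := fun p hp => inv_anti₀ hδ (H.low p hp)
  have hv0 : ∀ p : ℂ × ℂ, 0 ≤ ‖p.1 * p.2‖⁻¹ := fun p => by positivity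
  -- large second coordinate
  have hbigW : ∀ {c : ℝ} {W : ℕ}, 0 < c → 1 / (c * E) < W → ∀ p : ℂ × ℂ, c ≤ ‖p.1‖ →
      (W:ℝ) ≤ ‖p.2‖ → ‖p.1 * p.2‖⁻¹ ≤ E := by
    intro c W hc hW p h1 h2
    have hWpos : (0:ℝ) < W := lt_trans (by positivity) hW
    rw [norm_mul]
    apply inv_le_of_inv_le₀ hE
    rw [div_lt_iff₀ (by positivity)] at hW
    have h3 : c * W ≤ ‖p.1‖ * ‖p.2‖ := mul_le_mul h1 h2 hWpos.le (norm_nonneg _)
    rw [inv_le_iff_one_le_mul₀ hE]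
    nlinarith
  rcases lt_trichotomy r ‖p₀.1‖ with hlt | heq | hgt
  · -- outside
    obtain ⟨j, hj⟩ := pow_unbounded_of_one_lt (2 * ‖p₀.1‖ / r) hAE
    have hEj : 0 < E ^ j := by positivity
    set b := max (‖p₀.1‖ + 1) (r * δ⁻¹ ^ j / E ^ j) with hbdef
    obtain ⟨W, hW⟩ := exists_nat_gt (max ‖p₀.2‖ (1 / (r * E)))
    have hu : ∀ z : ℂ, z ≠ 0 → AnalyticAt ℂ (fun z : ℂ => (r:ℂ) / z) z ∧ (r:ℂ) / z ≠ 0 := by
      intro z hz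
      refine ⟨analyticAt_const.div analyticAt_id hz, div_ne_zero ?_ hz⟩
      exact_mod_cast hr.ne'
    have hun : ∀ z : ℂ, ‖(r:ℂ) / z‖ = r / ‖z‖ := by
      intro z; rw [norm_div, Complex.norm_real, Real.norm_eq_abs, abs_of_pos hr]
    refine step2 H hr hEj hu j W ?_ hp₀ hlt (b := b) ?_ ((le_max_left _ _).trans_lt hW) hW₀ hq₀ ?_
    · intro p hp h1 h2 h3
      have hpp : 0 < ‖p.1‖ := lt_of_lt_of_le hr h1
      simp only [hun]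
      have hle1 : r / ‖p.1‖ ≤ 1 := by rw [div_le_one hpp]; exact h1
      rcases h3 with h3 | h3 | h3
      · have e1 := pow_le_pow_left₀ (hv0 p) (hb p hp h3) j
        calc r / ‖p.1‖ * ‖p.1 * p.2‖⁻¹ ^ j ≤ 1 * E ^ j := mul_le_mul hle1 e1 (by positivity) (by norm_num)
          _ = E ^ j := one_mul _
      · have e1 := pow_le_pow_left₀ (hv0 p) (hvδ p hp) j
        have e2 : r * δ⁻¹ ^ j / E ^ j ≤ ‖p.1‖ := by rw [h3]; exact le_max_right _ _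
        rw [div_le_iff₀ hEj] at e2
        calc r / ‖p.1‖ * ‖p.1 * p.2‖⁻¹ ^ j ≤ r / ‖p.1‖ * δ⁻¹ ^ j :=
              mul_le_mul_of_nonneg_left e1 (by positivity)
          _ = (r * δ⁻¹ ^ j) / ‖p.1‖ := by ring
          _ ≤ E ^ j := by rw [div_le_iff₀ hpp]; linarith
      · have e0 := hbigW hr ((le_max_right _ _).trans_lt hW) p h1 h3
        have e1 := pow_le_pow_left₀ (hv0 p) e0 j
        calc r / ‖p.1‖ * ‖p.1 * p.2‖⁻¹ ^ j ≤ 1 * E ^ j := mul_le_mul hle1 e1 (by positivity) (by norm_num)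
          _ = E ^ j := one_mul _
    · exact lt_of_lt_of_le (by linarith) (le_max_left _ _)
    · simp only [hun]
      rw [← hA]
      rw [div_pow, div_lt_div_iff₀ hr hEj] at hj
      rw [div_mul_eq_mul_div, lt_div_iff₀ hz0']
      nlinarith
  · exact absurd (hb p₀ hp₀ heq.symm) (not_le.2 hcon)
  · -- inside
    obtain ⟨j, hj⟩ := pow_unbounded_of_one_lt (2 * r / ‖p₀.1‖) hAE
    have hEj : 0 < E ^ j := by positivity
    have hδj : 0 < δ⁻¹ ^ j := by positivity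
    set a := min (‖p₀.1‖ / 2) (r * E ^ j / δ⁻¹ ^ j) with hadef
    have ha : 0 < a := lt_min (by positivity) (by positivity)
    obtain ⟨W, hW⟩ := exists_nat_gt (max ‖p₀.2‖ (1 / (a * E)))
    have hu : ∀ z : ℂ, z ≠ 0 → AnalyticAt ℂ (fun z : ℂ => z / (r:ℂ)) z ∧ z / (r:ℂ) ≠ 0 := by
      intro z hz
      have hr' : (r:ℂ) ≠ 0 := by exact_mod_cast hr.ne'
      exact ⟨analyticAt_id.div analyticAt_const hr', div_ne_zero hz hr'⟩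
    have hun : ∀ z : ℂ, ‖z / (r:ℂ)‖ = ‖z‖ / r := by
      intro z; rw [norm_div, Complex.norm_real, Real.norm_eq_abs, abs_of_pos hr]
    refine step2 H ha hEj hu j W (b := r) ?_ hp₀ ?_ hgt ((le_max_left _ _).trans_lt hW) hW₀ hq₀ ?_
    · intro p hp h1 h2 h3
      simp only [hun]
      have hle1 : ‖p.1‖ / r ≤ 1 := by rw [div_le_one hr]; exact h2
      rcases h3 with h3 | h3 | h3
      · have e1 := pow_le_pow_left₀ (hv0 p) (hvδ p hp) j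
        have e2 : ‖p.1‖ ≤ r * E ^ j / δ⁻¹ ^ j := by rw [h3]; exact min_le_right _ _
        rw [le_div_iff₀ hδj] at e2
        calc ‖p.1‖ / r * ‖p.1 * p.2‖⁻¹ ^ j ≤ ‖p.1‖ / r * δ⁻¹ ^ j :=
              mul_le_mul_of_nonneg_left e1 (by positivity)
          _ = (‖p.1‖ * δ⁻¹ ^ j) / r := by ring
          _ ≤ E ^ j := by rw [div_le_iff₀ hr]; linarith
      · have e1 := pow_le_pow_left₀ (hv0 p) (hb p hp h3) j
        calc ‖p.1‖ / r * ‖p.1 * p.2‖⁻¹ ^ j ≤ 1 * E ^ j := mul_le_mul hle1 e1 (by positivity) (by norm_num)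
          _ = E ^ j := one_mul _
      · have e0 := hbigW ha ((le_max_right _ _).trans_lt hW) p h1 h3
        have e1 := pow_le_pow_left₀ (hv0 p) e0 j
        calc ‖p.1‖ / r * ‖p.1 * p.2‖⁻¹ ^ j ≤ 1 * E ^ j := mul_le_mul hle1 e1 (by positivity) (by norm_num)
          _ = E ^ j := one_mul _
    · exact lt_of_le_of_lt (min_le_left _ _) (by linarith)
    · simp only [hun]
      rw [← hA]
      rw [div_pow, div_lt_div_iff₀ hz0' hEj] at hj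
      rw [div_mul_eq_mul_div, lt_div_iff₀ hr]
      nlinarith

end

theorem main : JobMax := by
  intro X δ hδ hX hlow q hq hne hreg ⟨W₁, p₁, hp₁, hw₁, hq₁⟩
  have H : Hyp X δ q := ⟨hδ, hX, hlow, hq, hne, hreg⟩
  obtain ⟨r, hr, hrad⟩ := exists_radius H
  -- `X_r` is nonempty
  have hXr : ∃ p ∈ X, ‖p.1‖ = r := by
    by_contra hcon
    push Not at hcon
    have hv : 0 < ‖p₁.1 * p₁.2‖⁻¹ := inv_pos.2 (norm_pos_iff.2 (H.ne_zero hp₁))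
    have := claim H hr (half_pos hv) (fun p hp h => absurd h (hcon p hp)) hp₁ ⟨W₁, hw₁, hq₁⟩
    linarith
  obtain ⟨p', hp', hpr'⟩ := hXr
  -- minimum of the second coordinate
  let Kc : Set (ℂ × ℂ) := {p | p ∈ X ∧ ‖p.1‖ = r ∧ ‖p.2‖ ≤ ‖p'.2‖}
  have hKc : IsCompact Kc := by
    have hcl : IsClosed Kc := by
      have e1 : IsClosed {p : ℂ × ℂ | ‖p.1‖ = r} := isClosed_eq (by fun_prop) continuous_const
      have e2 : IsClosed {p : ℂ × ℂ | ‖p.2‖ ≤ ‖p'.2‖} := isClosed_le (by fun_prop) continuous_const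
      have : Kc = X ∩ ({p : ℂ × ℂ | ‖p.1‖ = r} ∩ {p : ℂ × ℂ | ‖p.2‖ ≤ ‖p'.2‖}) := by
        ext p; simp only [Kc, mem_setOf_eq, mem_inter_iff]
      rw [this]
      exact hX.inter (e1.inter e2)
    have hsub : Kc ⊆ Metric.closedBall (0:ℂ) r ×ˢ Metric.closedBall (0:ℂ) ‖p'.2‖ := by
      rintro p ⟨-, e2, e3⟩
      exact ⟨mem_closedBall_zero_iff.2 e2.le, mem_closedBall_zero_iff.2 e3⟩
    exact ((isCompact_closedBall _ _).prod (isCompact_closedBall _ _)).of_isClosed_subset hcl hsub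
  obtain ⟨pr, hpr, hmin⟩ := hKc.exists_isMinOn ⟨p', hp', hpr', le_rfl⟩
    (f := fun p : ℂ × ℂ => ‖p.2‖) (by fun_prop)
  have hne0 := H.ne_zero hpr.1
  have hz0 : pr.1 ≠ 0 := left_ne_zero_of_mul hne0
  have hw0 : pr.2 ≠ 0 := right_ne_zero_of_mul hne0
  set E := ‖pr.1 * pr.2‖⁻¹ with hE
  have hEpos : 0 < E := inv_pos.2 (norm_pos_iff.2 hne0)
  have hmaxE : ∀ p ∈ X, ‖p.1‖ = r → ‖p.1 * p.2‖⁻¹ ≤ E := by
    intro p hp h1
    rw [hE, norm_mul, norm_mul, h1, hpr.2.1]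
    have h2 : ‖pr.2‖ ≤ ‖p.2‖ := by
      by_cases h3 : ‖p.2‖ ≤ ‖p'.2‖
      · exact hmin (show p ∈ Kc from ⟨hp, h1, h3⟩)
      · push Not at h3
        exact hpr.2.2.trans h3.le
    apply inv_anti₀
    · exact mul_pos hr (norm_pos_iff.2 hw0)
    · exact mul_le_mul_of_nonneg_left h2 hr.le
  obtain ⟨W, hW⟩ := exists_nat_gt ‖pr.2‖
  have hqW := hrad W pr.1 hpr.2.1
  obtain ⟨h, hh, hh0, hhX⟩ := H.reg W pr hpr.1 hW hqW
  have hprod : pr.1 * h pr.1 ≠ 0 := by rw [hh0]; exact hne0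
  have hzh : AnalyticAt ℂ (fun z => z * h z) pr.1 := analyticAt_id.mul hh
  have hinv : AnalyticAt ℂ (fun z => (z * h z)⁻¹) pr.1 := hzh.inv hprod
  have n1 : ∀ᶠ z in 𝓝 pr.1, q W z ≠ 0 :=
    (hq W).continuous.continuousAt.eventually_ne hqW
  have n2 : ∀ᶠ z in 𝓝 pr.1, ‖h z‖ < W :=
    hh.continuousAt.norm.eventually (gt_mem_nhds (by show ‖h pr.1‖ < _; rw [hh0]; exact hW))
  have hloc : IsLocalMax (norm ∘ fun z => (z * h z)⁻¹) pr.1 := by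
    filter_upwards [hhX, n1, n2] with z i1 i2 i3
    have := claim H hr hEpos hmaxE i1 ⟨W, i3, i2⟩
    simp only [Function.comp_apply, norm_inv, hh0]
    rw [← hE]
    exact this
  have heq := Complex.eventually_eq_of_isLocalMax_norm
    (hinv.eventually_analyticAt.mono fun z hz => hz.differentiableAt) hloc
  refine ⟨pr.1, pr.1 * pr.2, hz0, hne0, ?_⟩
  have n3 : ∀ᶠ z in 𝓝 pr.1, z ≠ 0 := continuousAt_id.eventually_ne hz0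
  filter_upwards [heq, hhX, n3] with z i1 i2 i3
  rw [inv_inj, hh0] at i1
  have : pr.1 * pr.2 / z = h z := by rw [← i1, mul_div_cancel_left₀ _ i3]
  rw [this]
  exact i2

end Pool.Agent.R199.CV.JobMaxJob
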