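import Pool.Agent.R199.CV.Ent

set_option autoImplicit false
set_option maxHeartbeats 400000

namespace Pool.Agent.R199.CV.JobQJob

open Complex Set Filter Topology Pool.Agent.R199.CV.Ent

/-- numerator of the derivative of `Phi f` -/
noncomputable def DD (f : ℂ → ℂ) (z : ℂ) : ℂ :=
  (deriv f z + z * deriv (deriv f) z) * f z - z * deriv f z ^ 2

theorem diff_deriv {f : ℂ → ℂ} (hf : Differentiable ℂ f) : Differentiable ℂ (deriv f) := by
  intro z
  exact (hf.analyticAt z).deriv.differentiableAt

theorem DD_diff {f : ℂ → ℂ} (hf : Differentiable ℂ f) : Differentiable ℂ (DD f) := by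
  have h1 := diff_deriv hf
  have h2 := diff_deriv h1
  unfold DD
  fun_prop

theorem hasDerivAt_Phi {f : ℂ → ℂ} (hf : Differentiable ℂ f) {z : ℂ} (hz : f z ≠ 0) :
    HasDerivAt (Phi f) (DD f z / f z ^ 2) z := by
  have h1 := diff_deriv hf
  have a1 : HasDerivAt (fun z => z * deriv f z) (1 * deriv f z + z * deriv (deriv f) z) z :=
    (hasDerivAt_id z).mul (h1 z).hasDerivAt
  have a2 := a1.div (hf z).hasDerivAt hz
  unfold DD
  have e : (1 * deriv f z + z * deriv (deriv f) z) * f z - z * deriv f z * deriv f z =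
    (deriv f z + z * deriv (deriv f) z) * f z - z * deriv f z ^ 2 := by ring
  rw [e] at a2
  exact a2

theorem exists_f_ne {f : ℂ → ℂ} (hm : ¬ IsMono f) : ∃ z, f z ≠ 0 := by
  by_contra hcon
  push Not at hcon
  exact hm ⟨0, 0, fun z => by simp [hcon z]⟩

theorem exists_DD_ne {f : ℂ → ℂ} (hf : Differentiable ℂ f) (hm : ¬ IsMono f) :
    ∃ z, DD f z ≠ 0 := by
  by_contra hcon
  push Not at hcon
  obtain ⟨z₁, hz₁⟩ := exists_f_ne hm
  have hopen : IsOpen {z | f z ≠ 0} := isOpen_ne_fun hf.continuous continuous_const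
  obtain ⟨ε, hε, hball⟩ := Metric.isOpen_iff.1 hopen z₁ hz₁
  have hd : ∀ z ∈ Metric.ball z₁ ε, HasDerivAt (Phi f) 0 z := by
    intro z hz
    have := hasDerivAt_Phi hf (hball hz)
    rw [hcon z, zero_div] at this
    exact this
  obtain ⟨a, ha⟩ := Metric.isOpen_ball.exists_is_const_of_deriv_eq_zero
    (convex_ball z₁ ε).isPreconnected
    (fun z hz => (hd z hz).differentiableAt.differentiableWithinAt) (fun z hz => (hd z hz).deriv)
  obtain ⟨w, hw⟩ := exists_ne hf hm a
  apply hw
  have hD : Differentiable ℂ (fun z => z * deriv f z - a * f z) := by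
    have := diff_deriv hf
    fun_prop
  refine eq_zero_of_eventually hD (a := z₁) ?_ w
  filter_upwards [Metric.ball_mem_nhds z₁ hε] with z hz
  have h1 := ha z hz
  unfold Phi at h1
  rw [div_eq_iff (hball hz)] at h1
  rw [h1, sub_self]

theorem main : JobQ := by
  classical
  intro f g m hf hg hfm hgm
  have hf' := diff_deriv hf
  have hDg := DD_diff hg
  have hDf := DD_diff hf
  have hfin : ∀ W : ℕ, {w | w ∈ Metric.closedBall (0:ℂ) W ∧ DD g w = 0}.Finite := fun W =>
    finite_zeros hDg (exists_DD_ne hg hgm) (isCompact_closedBall _ _)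
  let S : ℕ → Finset ℂ := fun W => (hfin W).toFinset
  let q : ℕ → ℂ → ℂ := fun W z => z * f z * (z * deriv f z) * (z * deriv f z - m * f z) * DD f z *
    ∏ w ∈ S W, (z * deriv f z - Phi g w * f z)
  refine ⟨q, ?_, ?_, ?_⟩
  · intro W
    simp only [q]
    have : Differentiable ℂ (fun z => ∏ w ∈ S W, (z * deriv f z - Phi g w * f z)) := by
      apply Differentiable.fun_finset_prod
      intro w _
      fun_prop
    fun_prop
  · intro W
    have e0 : ∀ᶠ z in 𝓝[≠] (0:ℂ), z ≠ 0 := self_mem_nhdsWithin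
    have e1 := isolated hf (exists_f_ne hfm) 0
    have e2 : ∀ c : ℂ, ∀ᶠ z in 𝓝[≠] (0:ℂ), z * deriv f z - c * f z ≠ 0 := fun c =>
      isolated (f := fun z => z * deriv f z - c * f z) (by fun_prop) (exists_ne hf hfm c) 0
    have e3 : ∀ᶠ z in 𝓝[≠] (0:ℂ), z * deriv f z ≠ 0 := by
      have := e2 0
      simpa using this
    have e4 := isolated hDf (exists_DD_ne hf hfm) 0
    have e5 : ∀ᶠ z in 𝓝[≠] (0:ℂ), ∀ w ∈ S W, z * deriv f z - Phi g w * f z ≠ 0 := by
      rw [Filter.eventually_all_finset]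
      intro w _
      exact e2 _
    obtain ⟨z, h0, h1, h2, h3, h4, h5⟩ :=
      (e0.and (e1.and ((e2 m).and (e3.and (e4.and e5))))).exists
    refine ⟨z, ?_⟩
    simp only [q]
    exact mul_ne_zero (mul_ne_zero (mul_ne_zero (mul_ne_zero (mul_ne_zero h0 h1) h3) h2) h4)
      (Finset.prod_ne_zero_iff.2 h5)
  · intro W z hq
    simp only [q] at hq
    have hp := right_ne_zero_of_mul hq
    have hq1 := left_ne_zero_of_mul hq
    have h4 := right_ne_zero_of_mul hq1
    have hq2 := left_ne_zero_of_mul hq1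
    have h3 := right_ne_zero_of_mul hq2
    have hq3 := left_ne_zero_of_mul hq2
    have h2 := right_ne_zero_of_mul hq3
    have hq4 := left_ne_zero_of_mul hq3
    have h1 := right_ne_zero_of_mul hq4
    have h0 := left_ne_zero_of_mul hq4
    refine ⟨h0, h1, ?_, ?_, ?_, ?_⟩
    · unfold Phi; exact div_ne_zero h2 h1
    · unfold Phi
      intro he
      rw [div_eq_iff h1] at he
      exact h3 (sub_eq_zero.2 he)
    · rw [(hasDerivAt_Phi hf h1).deriv]
      exact div_ne_zero h4 (pow_ne_zero 2 h1)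
    · intro w hw hgw he hd
      rw [(hasDerivAt_Phi hg hgw).deriv, div_eq_zero_iff] at hd
      rcases hd with hd | hd
      · have hmem : w ∈ S W := by
          simp only [S, Set.Finite.mem_toFinset, mem_setOf_eq]
          refine ⟨?_, hd⟩
          rw [mem_closedBall_zero_iff]
          exact hw.le
        have h6 := Finset.prod_ne_zero_iff.1 hp w hmem
        apply h6
        rw [← he]
        unfold Phi
        rw [div_mul_cancel₀ _ h1, sub_self]
      · exact hgw (pow_eq_zero_iff (two_ne_zero) |>.1 hd)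

end Pool.Agent.R199.CV.JobQJob
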