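import Pool.Agent.R199.CV.JobStart

/-!
# `JobRegular` and `JobClosure` (MP_d0f9b4)
-/

set_option autoImplicit false

namespace Pool.Agent.R199.CV.JobRegularJob

open Complex Set Filter Topology Metric
open Pool.Agent.R199.CV.JobStartJob (ball_of_eventually exists_notMem comp_mem countable_pre
  phi_analytic)

theorem main1 : JobRegular := by
  intro f g m T x hf hg hT z0 w0 hcl hz0 hw0 hfz hgw hphi hne0 hnem hdf hdg
  have hfa : AnalyticAt ℂ (Phi f) z0 := phi_analytic f hf z0 hfz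
  have hga : AnalyticAt ℂ (Phi g) w0 := phi_analytic g hg w0 hgw
  -- local inverse of `Phi g`
  set ψ : ℂ → ℂ := hga.hasStrictDerivAt.localInverse _ _ _ hdg with hψ
  have hψa : AnalyticAt ℂ ψ (Phi g w0) := hga.analyticAt_localInverse hdg
  have hψl : ∀ᶠ w in 𝓝 w0, ψ (Phi g w) = w := hga.hasStrictDerivAt.eventually_left_inverse hdg
  have hψr : ∀ᶠ a in 𝓝 (Phi g w0), Phi g (ψ a) = a :=
    hga.hasStrictDerivAt.eventually_right_inverse hdg
  have hψ0 : ψ (Phi g w0) = w0 := hψl.self_of_nhds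
  -- local inverse of `Phi f`
  set θ : ℂ → ℂ := hfa.hasStrictDerivAt.localInverse _ _ _ hdf with hθ
  have hθl : ∀ᶠ z in 𝓝 z0, θ (Phi f z) = z := hfa.hasStrictDerivAt.eventually_left_inverse hdf
  set h : ℂ → ℂ := fun z => ψ (Phi f z) with hh
  have hha : AnalyticAt ℂ h z0 := by
    apply AnalyticAt.fun_comp
    · rw [hphi]; exact hψa
    · exact hfa
  have hh0 : h z0 = w0 := by
    simp only [hh]; rw [hphi]; exact hψ0
  have e1 : ∀ᶠ z in 𝓝 z0, Phi g (h z) = Phi f z := by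
    have : Tendsto (Phi f) (𝓝 z0) (𝓝 (Phi g w0)) := by
      rw [← hphi]; exact hfa.continuousAt.tendsto
    exact this.eventually hψr
  have e2 : ∀ᶠ z in 𝓝 z0, f z ≠ 0 := hf.continuous.continuousAt.eventually_ne hfz
  have e3 : ∀ᶠ z in 𝓝 z0, g (h z) ≠ 0 := by
    have hc : ContinuousAt (fun z => g (h z)) z0 :=
      hg.continuous.continuousAt.comp hha.continuousAt
    exact hc.eventually_ne (by simpa [hh0] using hgw)
  have e4 : ∀ᶠ z in 𝓝 z0, z ≠ 0 := continuousAt_id.eventually_ne hz0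
  have e5 : ∀ᶠ z in 𝓝 z0, h z ≠ 0 := hha.continuousAt.eventually_ne (by rw [hh0]; exact hw0)
  have e6 : ∀ᶠ z in 𝓝 z0, Phi f z ≠ 0 := hfa.continuousAt.eventually_ne hne0
  have e7 : ∀ᶠ z in 𝓝 z0, Phi f z ≠ m := hfa.continuousAt.eventually_ne hnem
  have e8 : ∀ᶠ z in 𝓝 z0, AnalyticAt ℂ h z := hha.eventually_analyticAt
  have e9 : ∀ᶠ z in 𝓝 z0, AnalyticAt ℂ (Phi f) z := hfa.eventually_analyticAt
  obtain ⟨ρ, hρ, hball⟩ := ball_of_eventually
    ((((((((e1.and e2).and e3).and e4).and e5).and e6).and e7).and (e8.and e9)).and hθl)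
  set ι : ℂ → ℂ × ℂ := fun z => (z * h z, Phi f z) with hι
  have hcurve : ∀ z ∈ ball z0 ρ, (z, h z) ∈ Curve f g := by
    intro z hz
    obtain ⟨⟨⟨⟨⟨⟨⟨⟨h1, h2⟩, h3⟩, h4⟩, h5⟩, h6⟩, h7⟩, h8, h9⟩, h10⟩ := hball z hz
    exact ⟨h2, h3, h1.symm⟩
  have hmaps : MapsTo ι (ball z0 ρ) (Img f g m) := by
    intro z hz
    obtain ⟨⟨⟨⟨⟨⟨⟨⟨h1, h2⟩, h3⟩, h4⟩, h5⟩, h6⟩, h7⟩, h8, h9⟩, h10⟩ := hball z hz
    exact ⟨mul_ne_zero h4 h5, h6, h7, (z, h z), hcurve z hz, rfl⟩
  have hcont : ContinuousOn ι (ball z0 ρ) := by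
    intro z hz
    obtain ⟨⟨⟨⟨⟨⟨⟨⟨h1, h2⟩, h3⟩, h4⟩, h5⟩, h6⟩, h7⟩, h8, h9⟩, h10⟩ := hball z hz
    apply ContinuousAt.continuousWithinAt
    exact (continuousAt_id.mul h8.continuousAt).prodMk h9.continuousAt
  have hfib : ∀ r : ℂ × ℂ, ({t | ι t = r} ∩ ball z0 ρ).Countable := by
    intro r
    apply Set.Subsingleton.countable
    rintro s ⟨hs1, hs2⟩ t ⟨ht1, ht2⟩
    have hs1' : ι s = r := hs1
    have ht1' : ι t = r := ht1
    have hst : Phi f s = Phi f t := by
      have := congrArg Prod.snd (hs1'.trans ht1'.symm)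
      simpa only [hι] using this
    have h1 := (hball s hs2).2
    have h2 := (hball t ht2).2
    rw [← h1, hst, h2]
  have hS := countable_pre T ι z0 ρ hT hfib
  -- a point of `X0` near `(z0, w0)`
  obtain ⟨t1, ht1, hcomp1⟩ : ∃ t1 ∈ ball z0 ρ,
      ι t1 ∈ connectedComponentIn (Img f g m \ T) x := by
    have hnb : (ball z0 ρ) ×ˢ {w | ψ (Phi g w) = w} ∈ 𝓝 (z0, w0) :=
      prod_mem_nhds (ball_mem_nhds z0 hρ) hψl
    obtain ⟨⟨z1, w1⟩, ⟨hz1, hw1⟩, hX⟩ := mem_closure_iff_nhds.mp hcl _ hnb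
    obtain ⟨⟨hc1, hc2, hc3⟩, hX2⟩ := hX
    have hw1' : ψ (Phi g w1) = w1 := hw1
    have hc3' : Phi f z1 = Phi g w1 := hc3
    refine ⟨z1, hz1, ?_⟩
    have : ι z1 = toImg f (z1, w1) := by
      simp only [hι, hh, toImg]
      rw [hc3', hw1']
    rw [this]
    exact hX2
  have hcomp := comp_mem (Img f g m) T x ι z0 ρ hρ hcont hmaps hS t1 ht1 hcomp1
  refine ⟨h, hha, hh0, ?_⟩
  filter_upwards [ball_mem_nhds z0 hρ] with z hz
  have hcz : ContinuousAt (fun z => (z, h z)) z := by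
    obtain ⟨⟨⟨⟨⟨⟨⟨⟨h1, h2⟩, h3⟩, h4⟩, h5⟩, h6⟩, h7⟩, h8, h9⟩, h10⟩ := hball z hz
    exact continuousAt_id.prodMk h8.continuousAt
  have hzcl : z ∈ closure (ball z0 ρ \ (ι ⁻¹' T ∩ ball z0 ρ)) := by
    rw [Metric.mem_closure_iff]
    intro ε hε
    obtain ⟨δ, hδ, hδb⟩ := Metric.isOpen_iff.mp (isOpen_ball (x := z0) (ε := ρ)) z hz
    obtain ⟨t, ht, htS⟩ := exists_notMem _ hS z (min ε δ) (lt_min hε hδ)
    refine ⟨t, ⟨hδb (ball_subset_ball (min_le_right _ _) ht), htS⟩, ?_⟩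
    rw [dist_comm]
    exact lt_of_lt_of_le ht (min_le_left _ _)
  have := hcz.continuousWithinAt (s := ball z0 ρ \ (ι ⁻¹' T ∩ ball z0 ρ))
    |>.mem_closure_image hzcl
  refine closure_mono ?_ this
  rintro _ ⟨s, ⟨hs, hsT⟩, rfl⟩
  exact ⟨hcurve s hs, hcomp s hs (fun hh => hsT ⟨hh, hs⟩)⟩

theorem main2 : JobClosure := by
  intro f g hf hg hmg z0 w0 hcl
  have hdf : Differentiable ℂ (deriv f) := by
    intro z; exact (hf.analyticAt z).deriv.differentiableAt
  have hdg : Differentiable ℂ (deriv g) := by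
    intro z; exact (hg.analyticAt z).deriv.differentiableAt
  have h1 : z0 * deriv f z0 * g w0 = w0 * deriv g w0 * f z0 := by
    have hclosed : IsClosed {p : ℂ × ℂ | p.1 * deriv f p.1 * g p.2 = p.2 * deriv g p.2 * f p.1} := by
      apply isClosed_eq
      · exact (continuous_fst.mul (hdf.continuous.comp continuous_fst)).mul
          (hg.continuous.comp continuous_snd)
      · exact (continuous_snd.mul (hdg.continuous.comp continuous_snd)).mul
          (hf.continuous.comp continuous_fst)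
    have hsub : Curve f g ⊆
        {p : ℂ × ℂ | p.1 * deriv f p.1 * g p.2 = p.2 * deriv g p.2 * f p.1} := by
      rintro ⟨z, w⟩ ⟨hz, hw, hzw⟩
      simp only [Phi] at hz hw hzw
      rw [div_eq_div_iff hz hw] at hzw
      simpa using hzw
    exact closure_minimal hsub hclosed hcl
  refine ⟨h1, fun hw0 hfz => ?_⟩
  have hgw : g w0 ≠ 0 := by
    intro hg0
    have hga : AnalyticAt ℂ g w0 := hg.analyticAt w0
    have hnz : ¬ ∀ᶠ w in 𝓝 w0, g w = 0 := by
      intro h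
      apply hmg
      refine ⟨0, 0, fun w => ?_⟩
      have := (JobStartJob.entire_analytic g hg).eqOn_zero_of_preconnected_of_eventuallyEq_zero
        isPreconnected_univ (mem_univ w0) h (mem_univ w)
      simpa using this
    obtain ⟨n, G, hGa, hG0, hG⟩ := hga.exists_eventuallyEq_pow_smul_nonzero_iff.mpr hnz
    have hn : n ≠ 0 := by
      rintro rfl
      have := hG.self_of_nhds
      rw [hg0] at this
      simp at this
      exact hG0 this.symm
    obtain ⟨j, rfl⟩ := Nat.exists_eq_succ_of_ne_zero hn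
    have hdG : ∀ᶠ w in 𝓝 w0, deriv g w =
        (j + 1 : ℂ) * (w - w0) ^ j * G w + (w - w0) ^ (j + 1) * deriv G w := by
      have h2 := hG.eventually_nhds
      filter_upwards [h2, hGa.eventually_analyticAt] with w hw hGw
      have h3 : deriv g w = deriv (fun w => (w - w0) ^ (j + 1) • G w) w :=
        Filter.EventuallyEq.deriv_eq hw
      rw [h3]
      have h4 : HasDerivAt (fun w : ℂ => (w - w0) ^ (j + 1)) (((j + 1 : ℕ) : ℂ) * (w - w0) ^ j * 1) w := by
        have h40 : HasDerivAt (fun w : ℂ => w - w0) 1 w := (hasDerivAt_id w).sub_const w0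
        exact h40.fun_pow (j + 1)
      have h5 := h4.mul hGw.differentiableAt.hasDerivAt
      have h6 : (fun w : ℂ => (w - w0) ^ (j + 1) • G w) = (fun w : ℂ => (w - w0) ^ (j + 1)) * G := by
        funext w; simp
      rw [h6, h5.deriv]
      push_cast
      ring
    -- the function which vanishes on the curve
    set F : ℂ × ℂ → ℂ := fun p => (p.2 - w0) * (p.1 * deriv f p.1) * G p.2 -
      p.2 * ((j + 1 : ℂ) * G p.2 + (p.2 - w0) * deriv G p.2) * f p.1 with hF
    have hG2 : ContinuousAt (fun p : ℂ × ℂ => G p.2) (z0, w0) :=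
      ContinuousAt.comp (f := Prod.snd) (g := G) hGa.continuousAt continuousAt_snd
    have hG3 : ContinuousAt (fun p : ℂ × ℂ => deriv G p.2) (z0, w0) :=
      ContinuousAt.comp (f := Prod.snd) (g := deriv G) hGa.deriv.continuousAt continuousAt_snd
    have hFc : ContinuousAt F (z0, w0) := by
      have c1 : ContinuousAt (fun p : ℂ × ℂ => p.2 - w0) (z0, w0) :=
        continuousAt_snd.sub continuousAt_const
      have c2 : ContinuousAt (fun p : ℂ × ℂ => p.1 * deriv f p.1) (z0, w0) :=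
        (continuous_fst.mul (hdf.continuous.comp continuous_fst)).continuousAt
      have c3 : ContinuousAt (fun p : ℂ × ℂ => f p.1) (z0, w0) :=
        (hf.continuous.comp continuous_fst).continuousAt
      exact ((c1.mul c2).mul hG2).sub
        ((continuousAt_snd.mul ((continuousAt_const.mul hG2).add (c1.mul hG3))).mul c3)
    have hF0 : F (z0, w0) ≠ 0 := by
      simp only [hF, sub_self, zero_mul, add_zero, zero_sub]
      apply neg_ne_zero.mpr
      exact mul_ne_zero (mul_ne_zero hw0 (mul_ne_zero (by exact_mod_cast Nat.succ_ne_zero j) hG0)) hfz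
    have hev : ∀ᶠ p in 𝓝 (z0, w0), F p ≠ 0 := hFc.eventually_ne hF0
    have hev2 : ∀ᶠ p in 𝓝 (z0, w0), g p.2 = (p.2 - w0) ^ (j + 1) • G p.2 :=
      continuousAt_snd.eventually (p := fun w => g w = (w - w0) ^ (j + 1) • G w) hG
    have hev3 : ∀ᶠ p in 𝓝 (z0, w0), deriv g p.2 =
        (j + 1 : ℂ) * (p.2 - w0) ^ j * G p.2 + (p.2 - w0) ^ (j + 1) * deriv G p.2 :=
      continuousAt_snd.eventually (p := fun w => deriv g w =
        (j + 1 : ℂ) * (w - w0) ^ j * G w + (w - w0) ^ (j + 1) * deriv G w) hdG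
    obtain ⟨⟨z, w⟩, ⟨⟨hz1, hz2⟩, hz3⟩, hzc⟩ :=
      mem_closure_iff_nhds.mp hcl _ ((hev.and hev2).and hev3)
    obtain ⟨hc1, hc2, hc3⟩ := hzc
    simp only [Phi, smul_eq_mul] at hz1 hz2 hz3 hc1 hc2 hc3
    apply hz1
    have hd : w - w0 ≠ 0 := by
      intro h0
      rw [h0] at hz2
      apply hc2
      rw [hz2]
      simp
    rw [div_eq_div_iff hc1 hc2, hz2, hz3] at hc3
    have hdj : (w - w0) ^ j ≠ 0 := pow_ne_zero j hd
    have h7 : (w - w0) ^ j * F (z, w) = 0 := by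
      simp only [hF]
      linear_combination hc3
    rcases mul_eq_zero.mp h7 with h8 | h8
    · exact absurd h8 hdj
    · exact h8
  refine ⟨hgw, ?_⟩
  rw [Phi, Phi, div_eq_div_iff hfz hgw]
  exact h1

end Pool.Agent.R199.CV.JobRegularJob
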