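import Pool.Agent.R199.CV.Defs

/-!
# JobRoot: local parametrisation `φ (Z t) = φ z0 + t ^ p`
-/

set_option autoImplicit false

namespace Pool.Agent.R199.CV.JobRootJob

open Complex Set Filter Topology

/-- local inverse of an analytic function with nonzero derivative -/
theorem exists_inv {β : ℂ → ℂ} {z0 : ℂ} (hβ : AnalyticAt ℂ β z0) (hd : deriv β z0 ≠ 0) :
    ∃ Z : ℂ → ℂ, AnalyticAt ℂ Z (β z0) ∧ Z (β z0) = z0 ∧ deriv Z (β z0) ≠ 0 ∧
      (∀ᶠ t in 𝓝 (β z0), β (Z t) = t) ∧ ∀ᶠ z in 𝓝 z0, Z (β z) = z := by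
  have h1 := hβ.analyticAt_localInverse hd
  have h2 := hβ.hasStrictDerivAt.to_localInverse hd
  refine ⟨hβ.hasStrictDerivAt.localInverse _ _ _ hd, h1,
    HasStrictFDerivAt.localInverse_apply_image .., ?_,
    hβ.hasStrictDerivAt.eventually_right_inverse hd,
    hβ.hasStrictDerivAt.eventually_left_inverse hd⟩
  rw [h2.hasDerivAt.deriv]
  exact inv_ne_zero hd

theorem main : JobRoot := by
  intro φ z0 hφ hnc
  have hφ' : AnalyticAt ℂ (fun z => φ z - φ z0) z0 := hφ.sub analyticAt_const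
  have hnc' : ¬ ∀ᶠ z in 𝓝 z0, φ z - φ z0 = 0 := by
    intro h
    exact hnc (h.mono fun z hz => sub_eq_zero.1 hz)
  obtain ⟨p, G, hG, hG0, hE⟩ := hφ'.exists_eventuallyEq_pow_smul_nonzero_iff.2 hnc'
  have hp : p ≠ 0 := by
    rintro rfl
    have h := hE.self_of_nhds
    simp only [sub_self, pow_zero, one_smul] at h
    exact hG0 h.symm
  obtain ⟨b, hb⟩ := IsAlgClosed.exists_pow_nat_eq (G z0) (Nat.pos_of_ne_zero hp)
  have hb0 : b ≠ 0 := by
    rintro rfl
    rw [zero_pow hp] at hb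
    exact hG0 hb.symm
  set H : ℂ → ℂ := fun z => (G z / G z0) ^ (1 / (p : ℂ)) with hH
  have hHa : AnalyticAt ℂ H z0 := by
    refine AnalyticAt.cpow (hG.div analyticAt_const hG0) analyticAt_const ?_
    rw [div_self hG0]
    exact one_mem_slitPlane
  have hHp : ∀ z, G z ≠ 0 → H z ^ p = G z / G z0 := by
    intro z _
    rw [hH]
    simp only
    rw [← Complex.cpow_nat_mul, one_div, mul_inv_cancel₀ (by exact_mod_cast hp), cpow_one]
  have hH0 : H z0 = 1 := by
    rw [hH]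
    simp only
    rw [div_self hG0, one_cpow]
  set β : ℂ → ℂ := fun z => (z - z0) * (b * H z) with hβ
  have hβa : AnalyticAt ℂ β z0 :=
    (analyticAt_id.sub analyticAt_const).mul (analyticAt_const.mul hHa)
  have hβ0 : β z0 = 0 := by simp [hβ]
  have hβd : HasDerivAt β b z0 := by
    have h1 : HasDerivAt (fun z : ℂ => z - z0) 1 z0 := (hasDerivAt_id z0).sub_const z0
    have h2 : HasDerivAt (fun z => b * H z) (b * deriv H z0) z0 :=
      (hHa.differentiableAt.hasDerivAt).const_mul b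
    have h3 := h1.mul h2
    simp only [sub_self, zero_mul, add_zero, one_mul, hH0, mul_one] at h3
    exact h3
  have hβd' : deriv β z0 ≠ 0 := by rw [hβd.deriv]; exact hb0
  obtain ⟨Z, hZ1, hZ2, hZ3, hZ4, -⟩ := exists_inv hβa hβd'
  rw [hβ0] at hZ1 hZ2 hZ3 hZ4
  refine ⟨p, Nat.pos_of_ne_zero hp, Z, hZ1, hZ2, hZ3, ?_⟩
  have hZc : Tendsto Z (𝓝 0) (𝓝 z0) := by
    have := hZ1.continuousAt.tendsto
    rwa [hZ2] at this
  have hGne : ∀ᶠ z in 𝓝 z0, G z ≠ 0 := hG.continuousAt.eventually_ne hG0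
  filter_upwards [hZ4, hZc.eventually hE, hZc.eventually hGne] with t h1 h2 h3
  have h4 : φ (Z t) = φ z0 + (Z t - z0) ^ p • G (Z t) := by rw [← h2]; ring
  have h5 : t ^ p = (Z t - z0) ^ p * G (Z t) := by
    conv_lhs => rw [← h1]
    rw [hβ]
    simp only
    rw [mul_pow, mul_pow, hHp _ h3, hb]
    field_simp
  rw [h4, h5, smul_eq_mul]

end Pool.Agent.R199.CV.JobRootJob
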