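import Pool.Agent.R199.CV.Defs

/-!
# `JobStart` (MP_d0f9b4)

Also contains the lemmas on countable sets in discs used by `JobRegular`.
-/

set_option autoImplicit false

namespace Pool.Agent.R199.CV.JobStartJob

open Complex Set Filter Topology Metric

/-- A disc minus a countable set is preconnected. -/
theorem preconn (c : ℂ) (ρ : ℝ) (hρ : 0 < ρ) (S : Set ℂ) (hS : (S ∩ ball c ρ).Countable) :
    IsPreconnected (ball c ρ \ S) := by
  let e := OpenPartialHomeomorph.univBall (E := ℂ) (P := ℂ) c ρ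
  have hsrc : e.source = univ := OpenPartialHomeomorph.univBall_source c ρ
  have htgt : e.target = ball c ρ := OpenPartialHomeomorph.univBall_target c hρ
  have hinj : Function.Injective e := by
    intro a b hab
    exact e.injOn (by rw [hsrc]; trivial) (by rw [hsrc]; trivial) hab
  have hcont : Continuous e := by
    rw [← continuousOn_univ, ← hsrc]; exact e.continuousOn
  have hcount : (e ⁻¹' (S ∩ ball c ρ)).Countable := hS.preimage hinj
  have hconn := (hcount.isConnected_compl_of_one_lt_rank (E := ℂ)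
    (by rw [Complex.rank_real_complex]; norm_num)).isPreconnected
  have himg := hconn.image e hcont.continuousOn
  have heq : e '' (e ⁻¹' (S ∩ ball c ρ))ᶜ = ball c ρ \ S := by
    ext y
    constructor
    · rintro ⟨a, ha, rfl⟩
      have hm : e a ∈ ball c ρ := by
        rw [← htgt]; exact e.map_source (by rw [hsrc]; trivial)
      exact ⟨hm, fun hs => ha ⟨hs, hm⟩⟩
    · rintro ⟨hy, hyS⟩
      refine ⟨e.symm y, ?_, e.right_inv (by rw [htgt]; exact hy)⟩
      intro h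
      have h' : e (e.symm y) ∈ S ∩ ball c ρ := h
      rw [e.right_inv (by rw [htgt]; exact hy)] at h'
      exact hyS h'.1
  rwa [heq] at himg

theorem countable_pre (T : Set (ℂ × ℂ)) (ι : ℂ → ℂ × ℂ) (c : ℂ) (ρ : ℝ)
    (hT : T.Countable) (hf : ∀ q, ({t | ι t = q} ∩ ball c ρ).Countable) :
    (ι ⁻¹' T ∩ ball c ρ).Countable := by
  have : ι ⁻¹' T ∩ ball c ρ = ⋃ q ∈ T, ({t | ι t = q} ∩ ball c ρ) := by
    ext t
    simp only [mem_inter_iff, mem_preimage, mem_iUnion, exists_prop]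
    constructor
    · rintro ⟨h1, h2⟩
      exact ⟨ι t, h1, rfl, h2⟩
    · rintro ⟨q, hq, h1, h2⟩
      have h1' : ι t = q := h1
      rw [h1']
      exact ⟨hq, h2⟩
  rw [this]
  exact hT.biUnion (fun q _ => hf q)

/-- A disc in the image set joined to the component of `x`. -/
theorem comp_mem (I T : Set (ℂ × ℂ)) (x : ℂ × ℂ) (ι : ℂ → ℂ × ℂ) (c : ℂ) (ρ : ℝ) (hρ : 0 < ρ)
    (hc : ContinuousOn ι (ball c ρ)) (hI : MapsTo ι (ball c ρ) I)
    (hS : (ι ⁻¹' T ∩ ball c ρ).Countable) (t1 : ℂ) (ht1 : t1 ∈ ball c ρ)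
    (h1 : ι t1 ∈ connectedComponentIn (I \ T) x) :
    ∀ t ∈ ball c ρ, ι t ∉ T → ι t ∈ connectedComponentIn (I \ T) x := by
  intro t ht htT
  have hpre : IsPreconnected (ball c ρ \ ι ⁻¹' T) := preconn c ρ hρ _ hS
  have himg : IsPreconnected (ι '' (ball c ρ \ ι ⁻¹' T)) :=
    hpre.image ι (hc.mono sdiff_subset)
  have hsub : ι '' (ball c ρ \ ι ⁻¹' T) ⊆ I \ T := by
    rintro _ ⟨s, hs, rfl⟩
    exact ⟨hI hs.1, hs.2⟩
  have h1T : ι t1 ∈ I \ T := connectedComponentIn_subset _ _ h1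
  have hmem : ι t1 ∈ ι '' (ball c ρ \ ι ⁻¹' T) := ⟨t1, ⟨ht1, h1T.2⟩, rfl⟩
  have := himg.subset_connectedComponentIn hmem hsub
  rw [← connectedComponentIn_eq h1] at this
  exact this ⟨t, ⟨ht, htT⟩, rfl⟩

/-- An entire solution of `z f' = c f` is a monomial. -/
theorem mono_of_ode (f : ℂ → ℂ) (hf : Differentiable ℂ f) (c : ℂ)
    (h : ∀ z, z * deriv f z = c * f z) : IsMono f := by
  have hd : ∀ k : ℕ, Differentiable ℂ (iteratedDeriv k f) := by
    intro k
    exact (hf.contDiff (n := ⊤)).differentiable_iteratedDeriv k (by simp)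
  have key : ∀ k : ℕ, ∀ z, z * iteratedDeriv (k + 1) f z + k * iteratedDeriv k f z =
      c * iteratedDeriv k f z := by
    intro k
    induction k with
    | zero =>
      intro z
      simpa [iteratedDeriv_one, iteratedDeriv_zero] using h z
    | succ k ih =>
      intro z
      have hfun : (fun z => z * iteratedDeriv (k + 1) f z + k * iteratedDeriv k f z) =
        fun z => c * iteratedDeriv k f z := funext ih
      have h1 : HasDerivAt (fun z => z * iteratedDeriv (k + 1) f z + k * iteratedDeriv k f z)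
          ((1 * iteratedDeriv (k + 1) f z + z * deriv (iteratedDeriv (k + 1) f) z) +
            k * deriv (iteratedDeriv k f) z) z :=
        ((hasDerivAt_id z).mul (hd (k + 1) z).hasDerivAt).add
          ((hd k z).hasDerivAt.const_mul _)
      have h2 : HasDerivAt (fun z => c * iteratedDeriv k f z)
          (c * deriv (iteratedDeriv k f) z) z := (hd k z).hasDerivAt.const_mul _
      rw [hfun] at h1
      have h3 := h1.unique h2
      rw [← iteratedDeriv_succ, ← iteratedDeriv_succ] at h3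
      push_cast
      linear_combination h3
  have key0 : ∀ k : ℕ, (k : ℂ) ≠ c → iteratedDeriv k f 0 = 0 := by
    intro k hk
    have := key k 0
    have h2 : ((k : ℂ) - c) * iteratedDeriv k f 0 = 0 := by linear_combination this
    rcases mul_eq_zero.mp h2 with h3 | h3
    · exact absurd (sub_eq_zero.mp h3) hk
    · exact h3
  by_cases hc : ∃ n : ℕ, (n : ℂ) = c
  · obtain ⟨n, hn⟩ := hc
    refine ⟨(n.factorial : ℂ)⁻¹ * iteratedDeriv n f 0, n, fun z => ?_⟩
    have hs := Complex.hasSum_taylorSeries_of_entire hf 0 z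
    have hs2 := hasSum_single n
      (f := fun n : ℕ => (n.factorial : ℂ)⁻¹ • (z - 0) ^ n • iteratedDeriv n f 0)
      (fun k hk => by
        have : iteratedDeriv k f 0 = 0 := key0 k (by
          rw [← hn]; exact fun h => hk (Nat.cast_injective h))
        simp [this])
    have := hs.unique hs2
    rw [this]
    simp only [smul_eq_mul, sub_zero]
    ring
  · refine ⟨0, 0, fun z => ?_⟩
    have hs := Complex.hasSum_taylorSeries_of_entire hf 0 z
    have hs2 : HasSum (fun n : ℕ => (n.factorial : ℂ)⁻¹ • (z - 0) ^ n • iteratedDeriv n f 0) 0 := by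
      convert hasSum_zero with k
      have : iteratedDeriv k f 0 = 0 := key0 k (fun h => hc ⟨k, h⟩)
      simp [this]
    rw [hs.unique hs2]
    simp

theorem entire_analytic (f : ℂ → ℂ) (hf : Differentiable ℂ f) : AnalyticOnNhd ℂ f univ :=
  fun z _ => hf.analyticAt z

theorem phi_analytic (f : ℂ → ℂ) (hf : Differentiable ℂ f) (z0 : ℂ) (h0 : f z0 ≠ 0) :
    AnalyticAt ℂ (Phi f) z0 := by
  have h1 : AnalyticAt ℂ f z0 := hf.analyticAt z0
  exact (analyticAt_id.mul h1.deriv).div h1 h0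

theorem phi_not_const (f : ℂ → ℂ) (hf : Differentiable ℂ f) (hm : ¬ IsMono f) (z0 : ℂ)
    (h0 : f z0 ≠ 0) : ¬ ∀ᶠ z in 𝓝 z0, Phi f z = Phi f z0 := by
  intro h
  apply hm
  apply mono_of_ode f hf (Phi f z0)
  have h1 : ∀ᶠ z in 𝓝 z0, z * deriv f z = Phi f z0 * f z := by
    have h2 : ∀ᶠ z in 𝓝 z0, f z ≠ 0 := hf.continuous.continuousAt.eventually_ne h0
    filter_upwards [h, h2] with z hz hz2
    rw [← hz, Phi, div_mul_cancel₀ _ hz2]
  have h3 : AnalyticOnNhd ℂ (fun z => z * deriv f z) univ := by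
    intro z _
    exact analyticAt_id.mul (hf.analyticAt z).deriv
  have h4 : AnalyticOnNhd ℂ (fun z => Phi f z0 * f z) univ := by
    intro z _
    exact analyticAt_const.mul (hf.analyticAt z)
  have := h3.eqOn_of_preconnected_of_eventuallyEq h4 isPreconnected_univ (mem_univ z0) h1
  intro z
  exact this (mem_univ z)

theorem ball_of_eventually {P : ℂ → Prop} {c : ℂ} (h : ∀ᶠ t in 𝓝 c, P t) :
    ∃ ρ : ℝ, 0 < ρ ∧ ∀ t ∈ ball c ρ, P t := by
  obtain ⟨ρ, hρ, h2⟩ := Metric.eventually_nhds_iff_ball.mp h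
  exact ⟨ρ, hρ, h2⟩

/-- a countable set does not contain a disc -/
theorem exists_notMem (S : Set ℂ) (hS : S.Countable) (c : ℂ) (ρ : ℝ) (hρ : 0 < ρ) :
    ∃ t ∈ ball c ρ, t ∉ S := by
  obtain ⟨t, ht1, ht2⟩ := (hS.dense_compl ℂ).inter_open_nonempty (ball c ρ) isOpen_ball
    ⟨c, mem_ball_self hρ⟩
  exact ⟨t, ht1, ht2⟩

theorem main : JobRoot → JobStart := by
  intro hroot f g m T x hf hg hmf hmg hT hx
  obtain ⟨⟨hx1, hx2, hxm, ⟨z0, w0⟩, ⟨hfz, hgw, hphi⟩, himg⟩, hxT⟩ := hx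
  simp only [toImg] at himg hfz hgw hphi
  have hxa : x.2 = Phi f z0 := by rw [← himg]
  have hxb : x.1 = z0 * w0 := by rw [← himg]
  have hz0 : z0 ≠ 0 := by
    rintro rfl; exact hx1 (by rw [hxb]; simp)
  have hw0 : w0 ≠ 0 := by
    rintro rfl; exact hx1 (by rw [hxb]; simp)
  obtain ⟨p, hp, Zf, hZa, hZ0, -, hZ⟩ := hroot (Phi f) z0 (phi_analytic f hf z0 hfz)
    (phi_not_const f hf hmf z0 hfz)
  obtain ⟨q, hq, Zg, hYa, hY0, -, hY⟩ := hroot (Phi g) w0 (phi_analytic g hg w0 hgw)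
    (phi_not_const g hg hmg w0 hgw)
  set z : ℂ → ℂ := fun t => Zf (t ^ q) with hzdef
  set w : ℂ → ℂ := fun t => Zg (t ^ p) with hwdef
  have hpow : ∀ n : ℕ, 0 < n → Tendsto (fun t : ℂ => t ^ n) (𝓝 0) (𝓝 0) := by
    intro n hn
    have : ContinuousAt (fun t : ℂ => t ^ n) 0 := (continuous_pow n).continuousAt
    have h2 := this.tendsto
    simpa [zero_pow hn.ne'] using h2
  have hz_0 : z 0 = z0 := by simp [hzdef, zero_pow hq.ne', hZ0]
  have hw_0 : w 0 = w0 := by simp [hwdef, zero_pow hp.ne', hY0]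
  have hza : AnalyticAt ℂ z 0 := by
    apply AnalyticAt.fun_comp (g := Zf) (f := fun t : ℂ => t ^ q)
    · simpa [zero_pow hq.ne'] using hZa
    · exact analyticAt_id.pow q
  have hwa : AnalyticAt ℂ w 0 := by
    apply AnalyticAt.fun_comp (g := Zg) (f := fun t : ℂ => t ^ p)
    · simpa [zero_pow hp.ne'] using hYa
    · exact analyticAt_id.pow p
  set a0 := Phi f z0 with ha0
  have e1 : ∀ᶠ t in 𝓝 (0 : ℂ), Phi f (z t) = a0 + t ^ (p * q) := by
    have := (hpow q hq).eventually hZ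
    filter_upwards [this] with t ht
    simp only [hzdef]
    rw [ht, ← pow_mul, mul_comm q p]
  have e2 : ∀ᶠ t in 𝓝 (0 : ℂ), Phi g (w t) = a0 + t ^ (p * q) := by
    have := (hpow p hp).eventually hY
    filter_upwards [this] with t ht
    simp only [hwdef]
    rw [ht, ← pow_mul, ← hphi]
  have e3 : ∀ᶠ t in 𝓝 (0 : ℂ), f (z t) ≠ 0 := by
    have hc : ContinuousAt (fun t => f (z t)) 0 :=
      hf.continuous.continuousAt.comp hza.continuousAt
    exact hc.eventually_ne (by simpa [hz_0] using hfz)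
  have e4 : ∀ᶠ t in 𝓝 (0 : ℂ), g (w t) ≠ 0 := by
    have hc : ContinuousAt (fun t => g (w t)) 0 :=
      hg.continuous.continuousAt.comp hwa.continuousAt
    exact hc.eventually_ne (by simpa [hw_0] using hgw)
  have e5 : ∀ᶠ t in 𝓝 (0 : ℂ), z t ≠ 0 := hza.continuousAt.eventually_ne (by rw [hz_0]; exact hz0)
  have e6 : ∀ᶠ t in 𝓝 (0 : ℂ), w t ≠ 0 := hwa.continuousAt.eventually_ne (by rw [hw_0]; exact hw0)
  have e7 : ∀ᶠ t in 𝓝 (0 : ℂ), ‖w t‖ < ‖w0‖ + 1 := by
    have : ContinuousAt (fun t => ‖w t‖) 0 := hwa.continuousAt.norm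
    refine this.eventually_lt continuousAt_const ?_
    simp [hw_0]
  have hpq : 0 < p * q := Nat.mul_pos hp hq
  have hca : ContinuousAt (fun t : ℂ => a0 + t ^ (p * q)) 0 :=
    (continuous_const.add (continuous_pow (p * q))).continuousAt
  have e8 : ∀ᶠ t in 𝓝 (0 : ℂ), a0 + t ^ (p * q) ≠ 0 :=
    hca.eventually_ne (by simpa [zero_pow hpq.ne', ← hxa] using hx2)
  have e9 : ∀ᶠ t in 𝓝 (0 : ℂ), a0 + t ^ (p * q) ≠ m :=
    hca.eventually_ne (by simpa [zero_pow hpq.ne', ← hxa] using hxm)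
  have e10 : ∀ᶠ t in 𝓝 (0 : ℂ), AnalyticAt ℂ z t := hza.eventually_analyticAt
  have e11 : ∀ᶠ t in 𝓝 (0 : ℂ), AnalyticAt ℂ w t := hwa.eventually_analyticAt
  obtain ⟨ρ, hρ, hball⟩ := ball_of_eventually
    (((((((((e1.and e2).and e3).and e4).and e5).and e6).and e7).and e8).and e9).and
      (e10.and e11))
  set ι : ℂ → ℂ × ℂ := fun t => (z t * w t, a0 + t ^ (p * q)) with hι
  have hι0 : ι 0 = x := by
    simp only [hι, hz_0, hw_0, zero_pow hpq.ne', add_zero]
    exact himg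
  have hcurve : ∀ t ∈ ball (0 : ℂ) ρ, (z t, w t) ∈ Curve f g := by
    intro t ht
    obtain ⟨⟨⟨⟨⟨⟨⟨⟨⟨h1, h2⟩, h3⟩, h4⟩, h5⟩, h6⟩, h7⟩, h8⟩, h9⟩, h10, h11⟩ := hball t ht
    exact ⟨h3, h4, h1.trans h2.symm⟩
  have htoImg : ∀ t ∈ ball (0 : ℂ) ρ, toImg f (z t, w t) = ι t := by
    intro t ht
    obtain ⟨⟨⟨⟨⟨⟨⟨⟨⟨h1, h2⟩, h3⟩, h4⟩, h5⟩, h6⟩, h7⟩, h8⟩, h9⟩, h10, h11⟩ := hball t ht
    simp only [toImg, hι, h1]
  have hmaps : MapsTo ι (ball 0 ρ) (Img f g m) := by
    intro t ht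
    obtain ⟨⟨⟨⟨⟨⟨⟨⟨⟨h1, h2⟩, h3⟩, h4⟩, h5⟩, h6⟩, h7⟩, h8⟩, h9⟩, h10, h11⟩ := hball t ht
    exact ⟨mul_ne_zero h5 h6, h8, h9, (z t, w t), hcurve t ht, htoImg t ht⟩
  have hcont : ContinuousOn ι (ball 0 ρ) := by
    intro t ht
    obtain ⟨⟨⟨⟨⟨⟨⟨⟨⟨h1, h2⟩, h3⟩, h4⟩, h5⟩, h6⟩, h7⟩, h8⟩, h9⟩, h10, h11⟩ := hball t ht
    apply ContinuousAt.continuousWithinAt
    exact (h10.continuousAt.mul h11.continuousAt).prodMk
      (continuous_const.add (continuous_pow (p * q))).continuousAt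
  have hfib : ∀ r : ℂ × ℂ, ({t | ι t = r} ∩ ball (0 : ℂ) ρ).Countable := by
    intro r
    apply Set.Countable.mono inter_subset_left
    have hsub : {t : ℂ | ι t = r} ⊆ ((Polynomial.nthRoots (p * q) (r.2 - a0)).toFinset : Set ℂ) := by
      intro t ht
      have ht' : ι t = r := ht
      have h2 : a0 + t ^ (p * q) = r.2 := by rw [← ht']
      simp only [Finset.mem_coe, Multiset.mem_toFinset]
      rw [Polynomial.mem_nthRoots hpq, ← h2]
      ring
    exact (Finset.countable_toSet _).mono hsub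
  have hS := countable_pre T ι 0 ρ hT hfib
  have hxin : x ∈ Img f g m \ T :=
    ⟨⟨hx1, hx2, hxm, (z0, w0), ⟨hfz, hgw, hphi⟩, by simpa only [toImg] using himg⟩, hxT⟩
  have hcomp := comp_mem (Img f g m) T x ι 0 ρ hρ hcont hmaps hS 0 (mem_ball_self hρ)
    (by rw [hι0]; exact mem_connectedComponentIn hxin)
  refine ⟨‖w0‖ + 1, fun Q hQ hQne => ?_⟩
  -- `Q (z t)` is not zero in a punctured neighbourhood of `0`
  have hQz : ∀ᶠ t in 𝓝[≠] (0 : ℂ), Q (z t) ≠ 0 := by
    have hQza : AnalyticAt ℂ (fun t => Q (z t)) 0 := (hQ.analyticAt (z 0)).comp hza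
    rcases hQza.eventually_eq_zero_or_eventually_ne_zero with h | h
    · exfalso
      have hQa : AnalyticAt ℂ Q z0 := hQ.analyticAt z0
      rcases hQa.eventually_eq_zero_or_eventually_ne_zero with h' | h'
      · obtain ⟨y, hy⟩ := hQne
        apply hy
        exact (entire_analytic Q hQ).eqOn_zero_of_preconnected_of_eventuallyEq_zero
          isPreconnected_univ (mem_univ z0) h' (mem_univ y)
      · rw [eventually_nhdsWithin_iff] at h'
        have hzt : Tendsto z (𝓝 0) (𝓝 z0) := by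
          have := hza.continuousAt.tendsto
          rwa [hz_0] at this
        have h'' := hzt.eventually h'
        have hall : ∀ᶠ t in 𝓝 (0 : ℂ), t ^ (p * q) = 0 := by
          filter_upwards [h, h'', e1] with t h1 h2 h3
          by_cases hzz : z t = z0
          · rw [hzz] at h3
            have : a0 + t ^ (p * q) = a0 + 0 := by rw [← h3, add_zero]
            exact add_left_cancel this
          · exact absurd h1 (h2 hzz)
        obtain ⟨ε, hε, hb⟩ := ball_of_eventually hall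
        obtain ⟨t, ht, ht0⟩ := exists_notMem {0} (countable_singleton 0) 0 ε hε
        exact ht0 (pow_eq_zero_iff hpq.ne' |>.mp (hb t ht))
    · exact h
  rw [eventually_nhdsWithin_iff] at hQz
  obtain ⟨ε, hε, hb⟩ := ball_of_eventually hQz
  obtain ⟨t, ht, htS⟩ := exists_notMem ((ι ⁻¹' T ∩ ball (0 : ℂ) ρ) ∪ {0})
    (hS.union (countable_singleton 0)) 0 (min ε ρ) (lt_min hε hρ)
  have htε : t ∈ ball (0 : ℂ) ε := ball_subset_ball (min_le_left _ _) ht
  have htρ : t ∈ ball (0 : ℂ) ρ := ball_subset_ball (min_le_right _ _) ht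
  have htT : ι t ∉ T := fun h => htS (Or.inl ⟨h, htρ⟩)
  have ht0 : t ≠ 0 := fun h => htS (Or.inr h)
  obtain ⟨⟨⟨⟨⟨⟨⟨⟨⟨h1, h2⟩, h3⟩, h4⟩, h5⟩, h6⟩, h7⟩, h8⟩, h9⟩, h10, h11⟩ := hball t htρ
  refine ⟨(z t, w t), ⟨hcurve t htρ, ?_⟩, h7, hb t htε ht0⟩
  rw [htoImg t htρ]
  exact hcomp t htρ htT

end Pool.Agent.R199.CV.JobStartJob
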