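import Pool.Agent.R199.CV.Defs

namespace Pool.Agent.R199.CV

open Complex Set Filter Topology

theorem main_of_jobs (hF : JobFinal) (hM : JobMax) (hQ : JobQ) (hR : JobRegular) (hC : JobClosure)
    (hS : JobStart)
    (f g : ℂ → ℂ) (m : ℂ) (hf : Differentiable ℂ f) (hg : Differentiable ℂ g)
    (hfg : ∀ w, ‖g w‖ = ‖f ((starRingEnd ℂ) w)‖)
    (hfm : ¬ IsMono f) (hgm : ¬ IsMono g)
    (T : Set (ℂ × ℂ)) (hT : T.Countable) (x : ℂ × ℂ) (hx : x ∈ Img f g m \ T)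
    (δ : ℝ) (hδ : 0 < δ) :
    ∃ p ∈ connectedComponentIn (Img f g m \ T) x, ‖p.1‖ < δ := by
  by_contra hcon
  push Not at hcon
  set X := closure (X0 f g m T x) with hX
  have hX0 : ∀ p ∈ X0 f g m T x, δ ≤ ‖p.1 * p.2‖ := fun p hp => hcon _ hp.2
  have hXδ : ∀ p ∈ X, δ ≤ ‖p.1 * p.2‖ := by
    have hcl : IsClosed {p : ℂ × ℂ | δ ≤ ‖p.1 * p.2‖} :=
      isClosed_le continuous_const (by fun_prop)
    exact fun p hp => closure_minimal (fun q hq => hX0 q hq) hcl hp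
  have hne : ∀ p ∈ X, p.1 ≠ 0 ∧ p.2 ≠ 0 := by
    intro p hp
    have h := hXδ p hp
    constructor
    · intro h0
      rw [h0, zero_mul, norm_zero] at h
      linarith
    · intro h0
      rw [h0, mul_zero, norm_zero] at h
      linarith
  have hXC : X ⊆ closure (Curve f g) := closure_mono (fun p hp => hp.1)
  obtain ⟨q, hqd, hqn, hq⟩ := hQ f g m hf hg hfm hgm
  obtain ⟨B, hB⟩ := hS f g m T x hf hg hfm hgm hT hx
  obtain ⟨W, hW⟩ := exists_nat_gt B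
  obtain ⟨p, hp, hpB, hpq⟩ := hB (q W) (hqd W) (hqn W)
  obtain ⟨z0, κ, hz0, hκ, hev⟩ := hM X δ hδ isClosed_closure hXδ q hqd hqn (by
    intro W p hp hpW hpq
    obtain ⟨h1, h2, h3, h4, h5, h6⟩ := hq W p.1 hpq
    have hc := (hC f g hf hg hgm p.1 p.2 (hXC hp)).2 (hne p hp).2 h2
    exact hR f g m T x hf hg hT p.1 p.2 hp h1 (hne p hp).2 h2 hc.1 hc.2 h3 h4 h5
      (h6 p.2 hpW hc.1 hc.2))
    ⟨W, p, subset_closure hp, hpB.trans hW, hpq⟩
  apply hfm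
  refine hF f g hf hg hfg κ z0 hκ hz0 ?_
  filter_upwards [hev] with z hz
  exact (hC f g hf hg hgm z (κ / z) (hXC hz)).1

end Pool.Agent.R199.CV
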